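import Pool.Agent.T6.H55.JHStep

set_option autoImplicit false
set_option linter.unusedSectionVars false

/-!
# The vector valued James space
-/

open Filter Topology
open scoped ENNReal

namespace Pool.Agent.T6.H55.JH

/-- the index set of the norming family -/
abbrev Idx : Type := ℕ × {p : ℕ → ℕ // Monotone p}

section space

variable (H : Type) [NormedAddCommGroup H] [InnerProductSpace ℝ H]

/-- the ambient space -/
abbrev Big : Type := lp (fun P : Idx => PiLp 2 (fun _ : Fin (P.1 + 1) => H)) ∞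

variable {H}

/-- the sequence of an element of the ambient space -/
noncomputable def seqOf (G : Big H) : ℕ → H := fun t => (G (0, ⟨fun _ => t, monotone_const⟩)) 0

theorem seqOf_add (G G' : Big H) : seqOf (G + G') = seqOf G + seqOf G' := rfl

theorem seqOf_sub (G G' : Big H) : seqOf (G - G') = seqOf G - seqOf G' := rfl

theorem seqOf_smul (c : ℝ) (G : Big H) : seqOf (c • G) = c • seqOf G := rfl

theorem seqOf_zero : seqOf (0 : Big H) = 0 := rfl

theorem norm_seqOf_le (G : Big H) (t : ℕ) : ‖seqOf G t‖ ≤ ‖G‖ :=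
  (PiLp.norm_apply_le _ _).trans (lp.norm_apply_le_norm ENNReal.top_ne_zero G _)

theorem continuous_seqOf (t : ℕ) : Continuous fun G : Big H => seqOf G t := by
  have h : LipschitzWith 1 fun G : Big H => seqOf G t := by
    refine LipschitzWith.of_dist_le_mul fun G G' => ?_
    rw [NNReal.coe_one, one_mul, dist_eq_norm, dist_eq_norm]
    exact norm_seqOf_le (G - G') t
  exact h.continuous

variable (H)

/-- The vector valued James space `J(H)`: the sequences `x` in `H` with `x t → 0` and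
`sup (∑ ‖x (p (i + 1)) - x (p i)‖² + ‖x (p r)‖²) < ∞`. -/
noncomputable def JX : Submodule ℝ (Big H) where
  carrier := {G | (∀ P : Idx, G P = Dv P.1 P.2.1 (seqOf G)) ∧ Tendsto (seqOf G) atTop (𝓝 0)}
  add_mem' := by
    rintro G G' ⟨h1, h2⟩ ⟨h1', h2'⟩
    refine ⟨fun P => ?_, ?_⟩
    · rw [seqOf_add, Dv_add, ← h1 P, ← h1' P]
      rfl
    · rw [seqOf_add]
      have := h2.add h2'
      rwa [add_zero] at this
  zero_mem' := by
    refine ⟨fun P => ?_, ?_⟩
    · rw [seqOf_zero]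
      have h := Dv_smul P.1 P.2.1 (0 : ℝ) (0 : ℕ → H)
      rw [zero_smul, zero_smul] at h
      rw [h]
      rfl
    · rw [seqOf_zero]
      exact tendsto_const_nhds
  smul_mem' := by
    rintro c G ⟨h1, h2⟩
    refine ⟨fun P => ?_, ?_⟩
    · rw [seqOf_smul, Dv_smul, ← h1 P]
      rfl
    · rw [seqOf_smul]
      have := h2.const_smul c
      rwa [smul_zero] at this

theorem isClosed_JX : IsClosed (JX H : Set (Big H)) := by
  have hA : IsClosed {G : Big H | ∀ P : Idx, G P = Dv P.1 P.2.1 (seqOf G)} := by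
    rw [Set.ofPred_forall]
    refine isClosed_iInter fun P => ?_
    have e : {G : Big H | G P = Dv P.1 P.2.1 (seqOf G)} =
        ⋂ i, {G : Big H | G P i = Dv P.1 P.2.1 (seqOf G) i} := by
      ext G
      rw [Set.mem_iInter]
      constructor
      · intro h i
        show G P i = _
        rw [show G P = _ from h]
      · intro h
        exact PiLp.ext h
    rw [e]
    refine isClosed_iInter fun i => ?_
    refine isClosed_eq ?_ ?_
    · have h : LipschitzWith 1 fun G : Big H => G P i := by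
        refine LipschitzWith.of_dist_le_mul fun G G' => ?_
        rw [NNReal.coe_one, one_mul, dist_eq_norm, dist_eq_norm]
        exact (PiLp.norm_apply_le ((G - G') P) i).trans
          (lp.norm_apply_le_norm ENNReal.top_ne_zero (G - G') P)
      exact h.continuous
    · simp only [Dv_apply]
      split_ifs
      · exact (continuous_seqOf _).sub (continuous_seqOf _)
      · exact continuous_seqOf _
  have hB : IsClosed {G : Big H | Tendsto (seqOf G) atTop (𝓝 0)} := by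
    rw [← isSeqClosed_iff_isClosed]
    intro Gn G hG hlim
    show Tendsto (seqOf G) atTop (𝓝 0)
    rw [Metric.tendsto_atTop]
    intro ε hε
    obtain ⟨n, hn⟩ := (Metric.tendsto_atTop.1 hlim) (ε / 2) (by positivity)
    obtain ⟨N, hN⟩ := (Metric.tendsto_atTop.1 (hG n)) (ε / 2) (by positivity)
    refine ⟨N, fun t ht => ?_⟩
    have h1 := hn n le_rfl
    have h2 := hN t ht
    rw [dist_eq_norm] at h1
    rw [dist_zero_right] at h2 ⊢
    have h3 := norm_seqOf_le (Gn n - G) t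
    rw [seqOf_sub, Pi.sub_apply] at h3
    have h4 := norm_sub_norm_le (seqOf G t) (seqOf (Gn n) t)
    rw [norm_sub_rev] at h4
    linarith
  exact hA.inter hB

instance [CompleteSpace H] : CompleteSpace (JX H) :=
  (isClosed_JX H).completeSpace_coe

variable {H}

theorem nle_seqOf (G : JX H) : Nle (seqOf (G : Big H)) ‖G‖ := by
  intro r p hp
  have h := G.2.1 (r, ⟨p, hp⟩)
  rw [← h]
  exact lp.norm_apply_le_norm ENNReal.top_ne_zero (G : Big H) _

theorem norm_le_of_nle (G : JX H) {c : ℝ} (h : Nle (seqOf (G : Big H)) c) : ‖G‖ ≤ c := by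
  have h1 : ∀ P : Idx, ‖(G : Big H) P‖ ≤ c := by
    intro P
    rw [G.2.1 P]
    exact h P.1 P.2.1 P.2.2
  exact lp.norm_le_of_forall_le h.nonneg h1

/-- the element of `J(H)` given by a sequence -/
noncomputable def mkX (x : ℕ → H) (c : ℝ) (h : Nle x c) (h0 : Tendsto x atTop (𝓝 0)) : JX H :=
  ⟨⟨fun P => Dv P.1 P.2.1 x, memℓp_infty ⟨c, by
    rintro _ ⟨P, rfl⟩
    exact h P.1 P.2.1 P.2.2⟩⟩, by
    have e : seqOf (⟨fun P => Dv P.1 P.2.1 x, memℓp_infty ⟨c, by
        rintro _ ⟨P, rfl⟩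
        exact h P.1 P.2.1 P.2.2⟩⟩ : Big H) = x := by
      funext t
      show (Dv 0 (fun _ => t) x) 0 = x t
      rw [Dv_apply, if_neg (by simp)]
    refine ⟨fun P => ?_, ?_⟩
    · rw [e]
    · rw [e]; exact h0⟩

theorem seqOf_mkX (x : ℕ → H) (c : ℝ) (h : Nle x c) (h0 : Tendsto x atTop (𝓝 0)) :
    seqOf (mkX x c h h0 : Big H) = x := by
  funext t
  show (Dv 0 (fun _ => t) x) 0 = x t
  rw [Dv_apply, if_neg (by simp)]

theorem norm_mkX (x : ℕ → H) (c : ℝ) (h : Nle x c) (h0 : Tendsto x atTop (𝓝 0)) :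
    ‖mkX x c h h0‖ ≤ c := by
  refine norm_le_of_nle _ ?_
  rw [seqOf_mkX]
  exact h

/-- the step sequences -/
noncomputable def stp (e : H) (t : ℕ) : ℕ → H := fun s => if s ≤ t then e else 0

theorem nle_stp (e : H) (he : ‖e‖ = 1) (t : ℕ) : Nle (stp e t) 1 := by
  intro r p hp
  have h1 : ‖Dv r p (stp e t)‖ ^ 2 ≤ 1 ^ 2 := by
    rw [Dv_norm_sq]
    let g : ℕ → ℝ := fun i => if p i ≤ t then 1 else 0
    have h2 : ∀ i, ‖stp e t (p (i + 1)) - stp e t (p i)‖ ^ 2 = g i - g (i + 1) := by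
      intro i
      have hab : p i ≤ p (i + 1) := hp (Nat.le_succ i)
      show ‖(if p (i + 1) ≤ t then e else 0) - (if p i ≤ t then e else 0)‖ ^ 2 =
        (if p i ≤ t then (1 : ℝ) else 0) - (if p (i + 1) ≤ t then 1 else 0)
      by_cases h3 : p (i + 1) ≤ t
      · rw [if_pos h3, if_pos h3, if_pos (hab.trans h3), if_pos (hab.trans h3), sub_self,
          norm_zero]
        norm_num
      · rw [if_neg h3, if_neg h3]
        by_cases h4 : p i ≤ t
        · rw [if_pos h4, if_pos h4, zero_sub, norm_neg, he]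
          norm_num
        · rw [if_neg h4, if_neg h4, sub_self, norm_zero]
          norm_num
    have h3 : ‖stp e t (p r)‖ ^ 2 = g r := by
      show ‖(if p r ≤ t then e else 0)‖ ^ 2 = (if p r ≤ t then (1 : ℝ) else 0)
      split_ifs
      · rw [he]; norm_num
      · rw [norm_zero]; norm_num
    rw [Finset.sum_congr rfl fun i _ => h2 i, Finset.sum_range_sub', h3, sub_add_cancel]
    show (if p 0 ≤ t then (1 : ℝ) else 0) ≤ 1 ^ 2
    split_ifs <;> norm_num
  exact (sq_le_sq₀ (norm_nonneg _) zero_le_one).1 h1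

theorem stp_tendsto (e : H) (t : ℕ) : Tendsto (stp e t) atTop (𝓝 0) := by
  refine tendsto_const_nhds.congr' ?_
  filter_upwards [eventually_gt_atTop t] with s hs
  show (0 : H) = if s ≤ t then e else 0
  rw [if_neg (by omega)]

/-- the coordinate functionals -/
noncomputable def coord (e : H) (he : ‖e‖ = 1) (t : ℕ) : JX H →L[ℝ] ℝ :=
  LinearMap.mkContinuous
    { toFun := fun G => inner ℝ (seqOf (G : Big H) t) e
      map_add' := fun G G' => by
        show inner ℝ (seqOf (G : Big H) t + seqOf (G' : Big H) t) e = _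
        rw [inner_add_left]
      map_smul' := fun c G => by
        show inner ℝ (c • seqOf (G : Big H) t) e = _
        rw [real_inner_smul_left, RingHom.id_apply, smul_eq_mul] } 1
    (fun G => by
      refine (abs_real_inner_le_norm _ _).trans ?_
      rw [he, mul_one, one_mul]
      exact norm_seqOf_le (G : Big H) t)

theorem coord_apply (e : H) (he : ‖e‖ = 1) (t : ℕ) (G : JX H) :
    coord e he t G = inner ℝ (seqOf (G : Big H) t) e := rfl

theorem norm_coord (e : H) (he : ‖e‖ = 1) (t : ℕ) : ‖coord e he t‖ ≤ 1 :=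
  LinearMap.mkContinuous_norm_le _ zero_le_one _

end space

/-- linear algebra -/
theorem exists_not_mem_span {E : Type*} [AddCommGroup E] [Module ℝ E] (s : Finset E) (W : Set E)
    (Ψ : ℕ → E →ₗ[ℝ] ℝ) (φ : ℕ → E) (h0 : ∀ c, ∀ w ∈ W, Ψ c w = 0)
    (h1 : ∀ c d, Ψ c (φ d) = if c = d then 1 else 0) :
    ∃ d, φ d ∉ Submodule.span ℝ ((↑s : Set E) ∪ W) := by
  classical
  by_contra hcon
  push Not at hcon
  set n := s.card with hn
  let T : E →ₗ[ℝ] (Fin (n + 1) → ℝ) := LinearMap.pi fun i => Ψ i.val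
  let V : Submodule ℝ (Fin (n + 1) → ℝ) := Submodule.span ℝ (↑(s.image T) : Set (Fin (n + 1) → ℝ))
  have hle : Submodule.span ℝ ((↑s : Set E) ∪ W) ≤ V.comap T := by
    rw [Submodule.span_le]
    rintro χ (hχ | hχ)
    · show T χ ∈ V
      exact Submodule.subset_span (Finset.mem_coe.2 (Finset.mem_image_of_mem T hχ))
    · show T χ ∈ V
      have : T χ = 0 := by
        funext i
        exact h0 i.val χ hχ
      rw [this]
      exact V.zero_mem
  have htop : V = ⊤ := by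
    rw [eq_top_iff, ← (Pi.basisFun ℝ (Fin (n + 1))).span_eq, Submodule.span_le]
    rintro _ ⟨i, rfl⟩
    have h2 : T (φ i.val) ∈ V := hle (hcon i.val)
    have h3 : T (φ i.val) = Pi.basisFun ℝ (Fin (n + 1)) i := by
      funext j
      rw [Pi.basisFun_apply]
      show Ψ j.val (φ i.val) = _
      rw [h1, Pi.single_apply]
      simp only [Fin.val_inj]
    rw [← h3]
    exact h2
  have h2 : Module.finrank ℝ V ≤ n := by
    refine (finrank_span_finset_le_card (s.image T)).trans ?_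
    exact Finset.card_image_le
  rw [htop, finrank_top, Module.finrank_pi, Fintype.card_fin] at h2
  omega

/-- bounded sequences in `X` converge in the bidual -/
theorem exists_bidual_lim {X : Type*} [NormedAddCommGroup X] [NormedSpace ℝ X]
    (z : ℕ → X) (hz : ∀ t, ‖z t‖ ≤ 1) : ∃ φ : (X →L[ℝ] ℝ) →L[ℝ] ℝ, ∀ g : X →L[ℝ] ℝ,
      Tendsto (fun t => g (z t)) U (𝓝 (φ g)) :=
  exists_functional_lim (fun t => NormedSpace.inclusionInDoubleDual ℝ X (z t)) 1 zero_le_one
      (Eventually.of_forall fun t => (NormedSpace.double_dual_bound ℝ _ _).trans (hz t))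

/-- A criterion for the bidual of `X` modulo `X` to be infinite-dimensional. -/
theorem nqr_criterion {X : Type} [NormedAddCommGroup X] [NormedSpace ℝ X]
    (z : ℕ → ℕ → X) (hz : ∀ c t, ‖z c t‖ ≤ 1) (g : ℕ → ℕ → X →L[ℝ] ℝ) (hg : ∀ c t, ‖g c t‖ ≤ 1)
    (h0 : ∀ c x, Tendsto (fun t => g c t x) U (𝓝 0))
    (h1 : ∀ c d t, ∀ᶠ s in (U : Filter ℕ), g c t (z d s) = if c = d then 1 else 0)
    (s : Finset ((X →L[ℝ] ℝ) →L[ℝ] ℝ)) : ∃ φ : (X →L[ℝ] ℝ) →L[ℝ] ℝ,
      φ ∉ Submodule.span ℝ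
        ((↑s : Set ((X →L[ℝ] ℝ) →L[ℝ] ℝ)) ∪
          {ψ : (X →L[ℝ] ℝ) →L[ℝ] ℝ | ∃ x : X, ∀ g : X →L[ℝ] ℝ, ψ g = g x}) := by
  choose φ hφ using fun c => exists_bidual_lim (z c) (hz c)
  choose Ψ hΨ using fun c => exists_bidual_lim (g c) (hg c)
  obtain ⟨d, hd⟩ := exists_not_mem_span s
    {ψ : (X →L[ℝ] ℝ) →L[ℝ] ℝ | ∃ x : X, ∀ g : X →L[ℝ] ℝ, ψ g = g x}
    (fun c => (Ψ c).toLinearMap) φ (by
      rintro c χ ⟨x, hx⟩
      refine tendsto_nhds_unique (hΨ c χ) ?_
      refine (h0 c x).congr fun t => ?_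
      rw [hx]) (by
      intro c d
      refine tendsto_nhds_unique (hΨ c (φ d)) ?_
      refine tendsto_const_nhds.congr fun t => ?_
      refine (tendsto_nhds_unique (hφ d (g c t)) ?_).symm
      refine tendsto_const_nhds.congr' ?_
      filter_upwards [h1 c d t] with s hs
      exact hs.symm)
  exact ⟨φ d, hd⟩

/-- The bidual of `J(H)` modulo `J(H)` is infinite-dimensional if there is an infinite orthonormal
sequence in `H`. -/
theorem not_quasireflexive {H : Type} [NormedAddCommGroup H] [InnerProductSpace ℝ H]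
    (e : ℕ → H) (he : Orthonormal ℝ e)
    (s : Finset ((JX H →L[ℝ] ℝ) →L[ℝ] ℝ)) : ∃ φ : (JX H →L[ℝ] ℝ) →L[ℝ] ℝ,
      φ ∉ Submodule.span ℝ
        ((↑s : Set ((JX H →L[ℝ] ℝ) →L[ℝ] ℝ)) ∪
          {ψ : (JX H →L[ℝ] ℝ) →L[ℝ] ℝ | ∃ x : JX H, ∀ g : JX H →L[ℝ] ℝ, ψ g = g x}) := by
  refine nqr_criterion
    (fun c t => mkX (stp (e c) t) 1 (nle_stp (e c) (he.1 c) t) (stp_tendsto _ t))
    (fun c t => norm_mkX _ _ _ _) (fun c t => coord (e c) (he.1 c) t)
    (fun c t => norm_coord _ _ _) ?_ ?_ s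
  · intro c x
    have h1 : Tendsto (fun t => seqOf (x : Big H) t) U (𝓝 0) := x.2.2.mono_left U_le_atTop
    have h2 : Tendsto (fun t => inner ℝ (seqOf (x : Big H) t) (e c)) U (𝓝 (inner ℝ (0 : H) (e c))) :=
      h1.inner tendsto_const_nhds
    rw [inner_zero_left] at h2
    refine h2.congr fun t => ?_
    rw [coord_apply]
  · intro c d t
    filter_upwards [U_gt t] with s hs
    rw [coord_apply, seqOf_mkX]
    show inner ℝ (if t ≤ s then e d else 0) (e c) = _
    rw [if_pos hs.le, (orthonormal_iff_ite.1 he) d c]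
    simp only [eq_comm]


/-- the Hilbert space -/
abbrev HH : Type := lp (fun _ : ℕ => ℝ) 2

theorem exists_orthonormal : ∃ e : ℕ → HH, Orthonormal ℝ e := by
  let b : HilbertBasis ℕ ℝ HH := default
  exact ⟨b, b.orthonormal⟩

/-- **Concentration.** -/
theorem concentration {H : Type} [NormedAddCommGroup H] [InnerProductSpace ℝ H] [CompleteSpace H]
    (K : ℕ) (f : (Fin K → ℕ) → JX H) (L : ℝ) (hL : 1 ≤ L)
    (hf : ∀ x y : Fin K → ℕ, StrictMono x → StrictMono y →
      ‖f x - f y‖ ≤ L * (hammingDist x y : ℝ)) :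
    ∃ x y : Fin K → ℕ, StrictMono x ∧ StrictMono y ∧ (∀ i j, x i ≠ y j) ∧
      ‖f x - f y‖ ^ 2 ≤ K * (5 * L ^ 2 + 8 * L * √(18 * L ^ 2 + 10 * L ^ 2 * K)) +
        (18 * L ^ 2 + 10 * L ^ 2 * K) := by
  have hL0 : 0 ≤ L := by linarith
  let F : (Fin K → ℕ) → ℕ → H := fun x => seqOf (f x : Big H)
  have hmono : StrictMono (fun i : Fin K => i.val) := fun i j h => h
  have hB : Bd 0 K F (‖f (fun i => i.val)‖ + L * K) := by
    intro x hx
    refine (nle_seqOf (f x)).mono ?_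
    have h1 := hf x (fun i => i.val) hx.1 hmono
    have h2 : (hammingDist x (fun i : Fin K => i.val) : ℝ) ≤ K := by
      have := hammingDist_le_card_fintype (x := x) (y := fun i : Fin K => i.val)
      rw [Fintype.card_fin] at this
      exact_mod_cast this
    have h3 := norm_le_norm_add_norm_sub' (f x) (f fun i => i.val)
    have h4 : L * (hammingDist x (fun i : Fin K => i.val) : ℝ) ≤ L * K :=
      mul_le_mul_of_nonneg_left h2 hL0
    linarith
  have hLp : Lp 0 K F L := by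
    intro x y i₀ hx hy hxy
    have h1 := hf x y hx.1 hy.1
    have h2 : (hammingDist x y : ℝ) ≤ 1 := by
      have : hammingDist x y ≤ ({i₀} : Finset (Fin K)).card := by
        refine Finset.card_le_card fun i hi => ?_
        rw [Finset.mem_filter] at hi
        rw [Finset.mem_singleton]
        by_contra hne
        exact hi.2 (hxy i hne)
      rw [Finset.card_singleton] at this
      exact_mod_cast this
    have h3 : seqOf (f x : Big H) - seqOf (f y : Big H) = seqOf ((f x - f y : JX H) : Big H) := rfl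
    show Nle (seqOf (f x : Big H) - seqOf (f y : Big H)) L
    rw [h3]
    refine (nle_seqOf (f x - f y)).mono (h1.trans ?_)
    exact mul_le_of_le_one_right hL0 h2
  have hzero : ∀ z : ℕ → H, z - z = 0 := fun z => sub_self z
  obtain ⟨x, y, hx, hy, hxy, hV, hS⟩ := main_ind L hL (18 * L ^ 2 + 10 * L ^ 2 * K) K F F 0
    (‖f (fun i => i.val)‖ + L * K) 0 (18 * L ^ 2) 0
    (add_nonneg (norm_nonneg _) (mul_nonneg hL0 (Nat.cast_nonneg K))) hB hB hLp hLp
    (by
      rw [sub_self]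
      intro r p _
      simp)
    (by
      intro t
      rw [sub_self, Pi.zero_apply, norm_zero]
      have : (0 : ℝ) ≤ 18 * L ^ 2 := by positivity
      simpa using this)
    (by
      intro j _
      rw [sub_self, norm_zero]
      norm_num)
    (by linarith) le_rfl
  refine ⟨x, y, hx.1, hy.1, hxy, ?_⟩
  have h1 : Nle (seqOf ((f x - f y : JX H) : Big H)) (√((0 +
      K * (5 * L ^ 2 + 8 * L * √(18 * L ^ 2 + 10 * L ^ 2 * K))) +
      (18 * L ^ 2 + 10 * L ^ 2 * K))) := nle_of_vle hV hS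
  have h2 := norm_le_of_nle _ h1
  have h3 := pow_le_pow_left₀ (norm_nonneg _) h2 2
  rw [Real.sq_sqrt (by positivity), zero_add] at h3
  exact h3

/-- the final numerical contradiction -/
theorem no_maps (ℓ : ℕ) (hℓ : 1 ≤ ℓ) (L : ℝ) : ∃ k : ℕ, ¬ ∃ f : (Fin (ℓ * k) → ℕ) → JX HH,
      ∀ x y : Fin (ℓ * k) → ℕ, StrictMono x → StrictMono y →
        ((symmDiff ((Finset.univ.filter (fun i : Fin (ℓ * k) => i.val < k)).image x)
            ((Finset.univ.filter (fun i : Fin (ℓ * k) => i.val < k)).image y)).card : ℝ) / 2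
          ≤ ‖f x - f y‖ ∧
        ‖f x - f y‖ ≤ L * (hammingDist x y : ℝ) := by
  set M : ℝ := max L 1 with hM
  have hM1 : 1 ≤ M := le_max_right _ _
  have hM0 : 0 ≤ M := by linarith
  obtain ⟨q, hq⟩ := exists_nat_gt (257 * M ^ 2 * (ℓ : ℝ) ^ 2)
  have hℓR : (1 : ℝ) ≤ ℓ := by exact_mod_cast hℓ
  have hM2 : (1 : ℝ) ≤ M ^ 2 := one_le_pow₀ hM1
  have hℓ2 : (1 : ℝ) ≤ (ℓ : ℝ) ^ 2 := one_le_pow₀ hℓR
  have hq1 : (1 : ℝ) ≤ q := by
    have h1 : (1 : ℝ) ≤ M ^ 2 * (ℓ : ℝ) ^ 2 := one_le_mul_of_one_le_of_one_le hM2 hℓ2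
    nlinarith
  refine ⟨q ^ 2, ?_⟩
  rintro ⟨f, hf⟩
  obtain ⟨x, y, hx, hy, hxy, hle⟩ := concentration (ℓ * q ^ 2) f M hM1 fun x y hx hy =>
    ((hf x y hx hy).2).trans (mul_le_mul_of_nonneg_right (le_max_left _ _) (Nat.cast_nonneg _))
  have hlow := (hf x y hx hy).1
  -- the lower bound
  set s : Finset (Fin (ℓ * q ^ 2)) := Finset.univ.filter (fun i => i.val < q ^ 2) with hs
  have hscard : s.card = q ^ 2 := by
    have h1 : s.image Fin.val = Finset.range (q ^ 2) := by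
      ext m
      rw [Finset.mem_image, Finset.mem_range]
      constructor
      · rintro ⟨i, hi, rfl⟩
        exact (Finset.mem_filter.1 hi).2
      · intro hm
        refine ⟨⟨m, lt_of_lt_of_le hm (Nat.le_mul_of_pos_left _ hℓ)⟩, ?_, rfl⟩
        exact Finset.mem_filter.2 ⟨Finset.mem_univ _, hm⟩
    rw [← Finset.card_image_of_injective s Fin.val_injective, h1, Finset.card_range]
  have hdis : Disjoint (s.image x) (s.image y) := by
    rw [Finset.disjoint_left]
    intro a ha hb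
    obtain ⟨i, -, rfl⟩ := Finset.mem_image.1 ha
    obtain ⟨j, -, hj⟩ := Finset.mem_image.1 hb
    exact hxy i j hj.symm
  rw [hdis.symmDiff_eq_sup, Finset.sup_eq_union, Finset.card_union_of_disjoint hdis,
    Finset.card_image_of_injective s hx.injective, Finset.card_image_of_injective s hy.injective,
    hscard] at hlow
  push_cast at hlow
  have hlow' : (q : ℝ) ^ 2 ≤ ‖f x - f y‖ := by linarith
  have hlow2 : ((q : ℝ) ^ 2) ^ 2 ≤ ‖f x - f y‖ ^ 2 := pow_le_pow_left₀ (by positivity) hlow' 2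
  push_cast at hle
  have hS : √(18 * M ^ 2 + 10 * M ^ 2 * ((ℓ : ℝ) * (q : ℝ) ^ 2)) ≤ 28 * M * ℓ * q := by
    refine Real.sqrt_le_iff.2 ⟨by positivity, ?_⟩
    have h1 : (1 : ℝ) ≤ (ℓ : ℝ) ^ 2 * (q : ℝ) ^ 2 :=
      one_le_mul_of_one_le_of_one_le hℓ2 (one_le_pow₀ hq1)
    have h2 : (ℓ : ℝ) * (q : ℝ) ^ 2 ≤ (ℓ : ℝ) ^ 2 * (q : ℝ) ^ 2 := by
      refine mul_le_mul_of_nonneg_right ?_ (by positivity)
      nlinarith
    have e : (28 * M * ℓ * q) ^ 2 = 784 * M ^ 2 * ((ℓ : ℝ) ^ 2 * (q : ℝ) ^ 2) := by ring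
    rw [e]
    have hMp : 0 < M ^ 2 := by positivity
    nlinarith
  have hfin : ‖f x - f y‖ ^ 2 ≤ 257 * M ^ 2 * (ℓ : ℝ) ^ 2 * (q : ℝ) ^ 3 := by
    refine hle.trans ?_
    have hlq : (0 : ℝ) ≤ (ℓ : ℝ) * (q : ℝ) ^ 2 := by positivity
    have h1 : (ℓ : ℝ) * (q : ℝ) ^ 2 * (5 * M ^ 2 + 8 * M *
        √(18 * M ^ 2 + 10 * M ^ 2 * ((ℓ : ℝ) * (q : ℝ) ^ 2))) ≤
        (ℓ : ℝ) * (q : ℝ) ^ 2 * (5 * M ^ 2 + 8 * M * (28 * M * ℓ * q)) := by
      refine mul_le_mul_of_nonneg_left ?_ hlq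
      have := mul_le_mul_of_nonneg_left hS (by positivity : (0 : ℝ) ≤ 8 * M)
      linarith
    refine (add_le_add_left h1 _).trans ?_
    have h2 : (ℓ : ℝ) * (q : ℝ) ^ 2 ≤ (ℓ : ℝ) ^ 2 * (q : ℝ) ^ 3 := by
      have h3 : (ℓ : ℝ) ≤ (ℓ : ℝ) ^ 2 := by nlinarith
      have h4 : (q : ℝ) ^ 2 ≤ (q : ℝ) ^ 3 := by nlinarith [sq_nonneg (q : ℝ)]
      exact mul_le_mul h3 h4 (by positivity) (by positivity)
    have h5 : (1 : ℝ) ≤ (ℓ : ℝ) ^ 2 * (q : ℝ) ^ 3 :=
      one_le_mul_of_one_le_of_one_le hℓ2 (one_le_pow₀ hq1)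
    have e : (ℓ : ℝ) * (q : ℝ) ^ 2 * (5 * M ^ 2 + 8 * M * (28 * M * ℓ * q)) =
        5 * M ^ 2 * ((ℓ : ℝ) * (q : ℝ) ^ 2) + 224 * M ^ 2 * ((ℓ : ℝ) ^ 2 * (q : ℝ) ^ 3) := by ring
    rw [e]
    nlinarith
  have hqq : (q : ℝ) ^ 3 * q ≤ (q : ℝ) ^ 3 * (257 * M ^ 2 * (ℓ : ℝ) ^ 2) := by
    calc (q : ℝ) ^ 3 * q = ((q : ℝ) ^ 2) ^ 2 := by ring
      _ ≤ ‖f x - f y‖ ^ 2 := hlow2
      _ ≤ 257 * M ^ 2 * (ℓ : ℝ) ^ 2 * (q : ℝ) ^ 3 := hfin
      _ = (q : ℝ) ^ 3 * (257 * M ^ 2 * (ℓ : ℝ) ^ 2) := by ring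
  have := le_of_mul_le_mul_left hqq (by positivity)
  linarith

end Pool.Agent.T6.H55.JH
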