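import Mathlib

set_option autoImplicit false
set_option linter.unusedSectionVars false

/-!
# Weak limits along an ultrafilter and 2-variation of sequences in a Hilbert space
-/

open Filter Topology

namespace Pool.Agent.T6.H55.JH

/-- a free ultrafilter on `ℕ` -/
noncomputable abbrev U : Ultrafilter ℕ := Filter.hyperfilter ℕ

theorem U_gt (b : ℕ) : ∀ᶠ n in (U : Filter ℕ), b < n := by
  have h : ∀ᶠ n in (cofinite : Filter ℕ), b < n := by
    rw [Nat.cofinite_eq_atTop]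
    exact eventually_gt_atTop b
  exact h.filter_mono hyperfilter_le_cofinite

theorem U_le_atTop : (U : Filter ℕ) ≤ atTop := by
  rw [← Nat.cofinite_eq_atTop]
  exact hyperfilter_le_cofinite

/-- bounded real sequences converge along `U` -/
theorem exists_lim (a : ℕ → ℝ) (C : ℝ) (ha : ∀ᶠ n in (U : Filter ℕ), |a n| ≤ C) :
    ∃ l, Tendsto a U (𝓝 l) := by
  have hc : IsCompact (Set.Icc (-C) C) := isCompact_Icc
  have h1 : ((U.map a : Ultrafilter ℝ) : Filter ℝ) ≤ 𝓟 (Set.Icc (-C) C) := by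
    rw [le_principal_iff]
    show a ⁻¹' Set.Icc (-C) C ∈ (U : Filter ℕ)
    filter_upwards [ha] with n hn
    exact abs_le.1 hn
  obtain ⟨l, -, hl⟩ := hc.ultrafilter_le_nhds _ h1
  exact ⟨l, hl⟩

/-- bounded sequences of functionals converge pointwise along `U` -/
theorem exists_functional_lim {Y : Type*} [NormedAddCommGroup Y] [NormedSpace ℝ Y]
    (ψ : ℕ → Y →L[ℝ] ℝ) (C : ℝ) (hC : 0 ≤ C) (hψ : ∀ᶠ n in (U : Filter ℕ), ‖ψ n‖ ≤ C) :
    ∃ φ : Y →L[ℝ] ℝ, ∀ y, Tendsto (fun n => ψ n y) U (𝓝 (φ y)) := by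
  have hb : ∀ y, ∀ᶠ n in (U : Filter ℕ), |ψ n y| ≤ C * ‖y‖ := by
    intro y
    filter_upwards [hψ] with n hn
    exact (ψ n).le_of_opNorm_le hn y
  choose l hl using fun y => exists_lim (fun n => ψ n y) _ (hb y)
  refine ⟨LinearMap.mkContinuous
    { toFun := l
      map_add' := fun y z => by
        refine tendsto_nhds_unique (hl (y + z)) ?_
        refine ((hl y).add (hl z)).congr fun n => ?_
        rw [map_add]
      map_smul' := fun c y => by
        refine tendsto_nhds_unique (hl (c • y)) ?_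
        refine ((hl y).const_mul c).congr fun n => ?_
        rw [map_smul, smul_eq_mul] } C (fun y => ?_), hl⟩
  exact le_of_tendsto (hl y).norm (hb y)

section hilbert

variable {H : Type*} [NormedAddCommGroup H] [InnerProductSpace ℝ H]

/-- weak convergence along `U` -/
def IsWlim (x : ℕ → H) (w : H) : Prop :=
  ∀ h : H, Tendsto (fun n => inner ℝ (x n) h) U (𝓝 (inner ℝ w h))

theorem IsWlim.unique {x : ℕ → H} {w w' : H} (h : IsWlim x w) (h' : IsWlim x w') : w = w' := by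
  refine ext_inner_right ℝ fun v => ?_
  exact tendsto_nhds_unique (h v) (h' v)

theorem IsWlim.sub {x y : ℕ → H} {w z : H} (h : IsWlim x w) (h' : IsWlim y z) :
    IsWlim (fun n => x n - y n) (w - z) := by
  intro v
  simp only [inner_sub_left]
  exact (h v).sub (h' v)

theorem IsWlim.sub_const {x : ℕ → H} {w : H} (h : IsWlim x w) (z : H) :
    IsWlim (fun n => x n - z) (w - z) :=
  h.sub fun _ => tendsto_const_nhds

theorem IsWlim.const_sub {x : ℕ → H} {w : H} (h : IsWlim x w) (z : H) :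
    IsWlim (fun n => z - x n) (z - w) :=
  IsWlim.sub (fun _ => tendsto_const_nhds) h

theorem IsWlim.norm_le {x : ℕ → H} {w : H} (h : IsWlim x w) {C : ℝ}
    (hx : ∀ᶠ n in (U : Filter ℕ), ‖x n‖ ≤ C) : ‖w‖ ≤ C := by
  have h1 : ∀ᶠ n in (U : Filter ℕ), inner ℝ (x n) w ≤ C * ‖w‖ := by
    filter_upwards [hx] with n hn
    exact (real_inner_le_norm _ _).trans (mul_le_mul_of_nonneg_right hn (norm_nonneg _))
  have h2 : inner ℝ w w ≤ C * ‖w‖ := le_of_tendsto (h w) h1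
  rw [real_inner_self_eq_norm_sq] at h2
  by_contra hcon
  push Not at hcon
  have h3 : 0 ≤ C := by
    obtain ⟨n, hn⟩ := hx.exists
    exact (norm_nonneg _).trans hn
  have h4 : 0 < ‖w‖ := lt_of_le_of_lt h3 hcon
  nlinarith

variable [CompleteSpace H]

theorem exists_wlim (x : ℕ → H) (C : ℝ) (hC : 0 ≤ C)
    (hx : ∀ᶠ n in (U : Filter ℕ), ‖x n‖ ≤ C) : ∃ w, IsWlim x w := by
  obtain ⟨φ, hφ⟩ := exists_functional_lim (fun n => innerSL ℝ (x n)) C hC (by
    filter_upwards [hx] with n hn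
    rwa [innerSL_apply_norm])
  refine ⟨(InnerProductSpace.toDual ℝ H).symm φ, fun h => ?_⟩
  rw [InnerProductSpace.toDual_symm_apply]
  exact hφ h

open Classical in
/-- the weak limit along `U` (zero if there is none) -/
noncomputable def wlim (x : ℕ → H) : H := if h : ∃ w, IsWlim x w then h.choose else 0

theorem isWlim_wlim (x : ℕ → H) (C : ℝ) (hC : 0 ≤ C)
    (hx : ∀ᶠ n in (U : Filter ℕ), ‖x n‖ ≤ C) : IsWlim x (wlim x) := by
  have h := exists_wlim x C hC hx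
  unfold wlim
  rw [dif_pos h]
  exact h.choose_spec

theorem IsWlim.wlim_eq {x : ℕ → H} {w : H} (h : IsWlim x w) : wlim x = w := by
  have h' : ∃ w, IsWlim x w := ⟨w, h⟩
  unfold wlim
  rw [dif_pos h']
  exact h'.choose_spec.unique h

end hilbert

section variation

variable {H : Type*} [NormedAddCommGroup H] [InnerProductSpace ℝ H]

/-- the vector of the increments along `p` and of the last value -/
noncomputable def Dv (r : ℕ) (p : ℕ → ℕ) (x : ℕ → H) : PiLp 2 (fun _ : Fin (r + 1) => H) :=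
  WithLp.toLp 2 (fun i => if i.val < r then x (p (i.val + 1)) - x (p i.val) else x (p r))

theorem Dv_apply (r : ℕ) (p : ℕ → ℕ) (x : ℕ → H) (i : Fin (r + 1)) :
    Dv r p x i = if i.val < r then x (p (i.val + 1)) - x (p i.val) else x (p r) := rfl

theorem Dv_sub (r : ℕ) (p : ℕ → ℕ) (x y : ℕ → H) : Dv r p (x - y) = Dv r p x - Dv r p y := by
  ext i
  rw [PiLp.sub_apply, Dv_apply, Dv_apply, Dv_apply]
  split_ifs
  · simp only [Pi.sub_apply]; abel
  · rfl

theorem Dv_add (r : ℕ) (p : ℕ → ℕ) (x y : ℕ → H) : Dv r p (x + y) = Dv r p x + Dv r p y := by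
  ext i
  rw [PiLp.add_apply, Dv_apply, Dv_apply, Dv_apply]
  split_ifs
  · simp only [Pi.add_apply]; abel
  · rfl

theorem Dv_smul (r : ℕ) (p : ℕ → ℕ) (c : ℝ) (x : ℕ → H) : Dv r p (c • x) = c • Dv r p x := by
  ext i
  rw [PiLp.smul_apply, Dv_apply, Dv_apply]
  split_ifs
  · simp only [Pi.smul_apply, smul_sub]
  · rfl

theorem Dv_norm_sq (r : ℕ) (p : ℕ → ℕ) (x : ℕ → H) :
    ‖Dv r p x‖ ^ 2 = ∑ i ∈ Finset.range r, ‖x (p (i + 1)) - x (p i)‖ ^ 2 + ‖x (p r)‖ ^ 2 := by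
  rw [PiLp.norm_sq_eq_of_L2, Fin.sum_univ_castSucc, ← Fin.sum_univ_eq_sum_range
    (fun i => ‖x (p (i + 1)) - x (p i)‖ ^ 2) r]
  congr 1
  · refine Finset.sum_congr rfl fun i _ => ?_
    rw [Dv_apply, if_pos (by simp)]
    rfl
  · rw [Dv_apply, if_neg (by simp)]

/-- the norm of the sequence `x` is at most `c` -/
def Nle (x : ℕ → H) (c : ℝ) : Prop := ∀ (r : ℕ) (p : ℕ → ℕ), Monotone p → ‖Dv r p x‖ ≤ c

/-- the square variation of `x` is at most `v` -/
def Vle (x : ℕ → H) (v : ℝ) : Prop := ∀ (r : ℕ) (p : ℕ → ℕ), Monotone p →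
  ∑ i ∈ Finset.range r, ‖x (p (i + 1)) - x (p i)‖ ^ 2 ≤ v

theorem Nle.nonneg {x : ℕ → H} {c : ℝ} (h : Nle x c) : 0 ≤ c :=
  (norm_nonneg _).trans (h 0 id monotone_id)

theorem Nle.apply {x : ℕ → H} {c : ℝ} (h : Nle x c) (t : ℕ) : ‖x t‖ ≤ c := by
  have h1 := h 0 (fun _ => t) monotone_const
  have h2 : ‖Dv 0 (fun _ => t) x‖ ^ 2 = ‖x t‖ ^ 2 := by
    rw [Dv_norm_sq, Finset.sum_range_zero, zero_add]
  rwa [(sq_eq_sq₀ (norm_nonneg _) (norm_nonneg _)).1 h2] at h1

theorem Nle.mono {x : ℕ → H} {c d : ℝ} (h : Nle x c) (hcd : c ≤ d) : Nle x d :=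
  fun r p hp => (h r p hp).trans hcd

theorem Nle.sub {x y : ℕ → H} {c d : ℝ} (h : Nle x c) (h' : Nle y d) : Nle (x - y) (c + d) := by
  intro r p hp
  rw [Dv_sub]
  exact (norm_sub_le _ _).trans (add_le_add (h r p hp) (h' r p hp))

theorem Nle.vle {x : ℕ → H} {c : ℝ} (h : Nle x c) : Vle x (c ^ 2) := by
  intro r p hp
  have h1 := pow_le_pow_left₀ (norm_nonneg _) (h r p hp) 2
  rw [Dv_norm_sq] at h1
  nlinarith [sq_nonneg ‖x (p r)‖]

theorem nle_of_vle {x : ℕ → H} {v s : ℝ} (h : Vle x v) (hs : ∀ t, ‖x t‖ ^ 2 ≤ s) :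
    Nle x (Real.sqrt (v + s)) := by
  intro r p hp
  refine Real.le_sqrt_of_sq_le ?_
  rw [Dv_norm_sq]
  exact add_le_add (h r p hp) (hs _)

/-- lower semicontinuity of the norm -/
theorem nle_of_wlim {y : ℕ → ℕ → H} {z : ℕ → H} {c : ℝ}
    (hy : ∀ᶠ n in (U : Filter ℕ), Nle (y n) c) (hz : ∀ t, IsWlim (fun n => y n t) (z t)) :
    Nle z c := by
  intro r p hp
  have h1 : IsWlim (fun n => Dv r p (y n)) (Dv r p z) := by
    intro v
    simp only [PiLp.inner_apply]
    refine tendsto_finsetSum _ fun i _ => ?_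
    simp only [Dv_apply]
    split_ifs
    · exact ((hz _).sub (hz _)) _
    · exact hz _ _
  refine h1.norm_le ?_
  filter_upwards [hy] with n hn
  exact hn r p hp

/-- the variation is small far out -/
theorem Vle.tail {x : ℕ → H} {v : ℝ} (h : Vle x v) {δ : ℝ} (hδ : 0 < δ) :
    ∃ N : ℕ, ∀ (r : ℕ) (p : ℕ → ℕ), Monotone p → N ≤ p 0 →
      ∑ i ∈ Finset.range r, ‖x (p (i + 1)) - x (p i)‖ ^ 2 ≤ δ := by
  set S : Set ℝ := {s | ∃ (r : ℕ) (p : ℕ → ℕ), Monotone p ∧
    s = ∑ i ∈ Finset.range r, ‖x (p (i + 1)) - x (p i)‖ ^ 2} with hS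
  have hne : S.Nonempty := ⟨_, 0, id, monotone_id, rfl⟩
  have hbd : BddAbove S := ⟨v, by rintro _ ⟨r, p, hp, rfl⟩; exact h r p hp⟩
  obtain ⟨_, ⟨r, p, hp, rfl⟩, hrp⟩ := exists_lt_of_lt_csSup hne
    (show sSup S - δ < sSup S by linarith)
  refine ⟨p r, fun r' q hq hq0 => ?_⟩
  -- concatenation
  let w : ℕ → ℕ := fun i => if i ≤ r then p i else q (i - (r + 1))
  have hw : Monotone w := by
    refine monotone_nat_of_le_succ fun i => ?_
    show (if i ≤ r then p i else q (i - (r + 1))) ≤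
      (if i + 1 ≤ r then p (i + 1) else q (i + 1 - (r + 1)))
    by_cases h1 : i + 1 ≤ r
    · rw [if_pos (by omega), if_pos h1]
      exact hp (by omega)
    · rw [if_neg h1]
      by_cases h2 : i ≤ r
      · rw [if_pos h2]
        exact (hp h2).trans (hq0.trans (hq (Nat.zero_le _)))
      · rw [if_neg h2]
        exact hq (by omega)
  have h1 : ∑ i ∈ Finset.range ((r + 1) + r'), ‖x (w (i + 1)) - x (w i)‖ ^ 2 ≤ sSup S :=
    le_csSup hbd ⟨_, w, hw, rfl⟩
  rw [Finset.sum_range_add, Finset.sum_range_succ] at h1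
  have h2 : ∑ i ∈ Finset.range r, ‖x (w (i + 1)) - x (w i)‖ ^ 2 =
      ∑ i ∈ Finset.range r, ‖x (p (i + 1)) - x (p i)‖ ^ 2 := by
    refine Finset.sum_congr rfl fun i hi => ?_
    rw [Finset.mem_range] at hi
    show ‖x (if i + 1 ≤ r then p (i + 1) else q (i + 1 - (r + 1))) -
      x (if i ≤ r then p i else q (i - (r + 1)))‖ ^ 2 = _
    rw [if_pos (by omega), if_pos (by omega)]
  have h3 : ∑ i ∈ Finset.range r', ‖x (w (r + 1 + i + 1)) - x (w (r + 1 + i))‖ ^ 2 =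
      ∑ i ∈ Finset.range r', ‖x (q (i + 1)) - x (q i)‖ ^ 2 := by
    refine Finset.sum_congr rfl fun i hi => ?_
    show ‖x (if r + 1 + i + 1 ≤ r then p (r + 1 + i + 1) else q (r + 1 + i + 1 - (r + 1))) -
      x (if r + 1 + i ≤ r then p (r + 1 + i) else q (r + 1 + i - (r + 1)))‖ ^ 2 = _
    rw [if_neg (by omega), if_neg (by omega)]
    congr 5
    · omega
    · omega
  rw [h2, h3] at h1
  nlinarith [sq_nonneg ‖x (w (r + 1)) - x (w r)‖]

end variation

end Pool.Agent.T6.H55.JH
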