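import Pool.Agent.T6.H55.JHBasic

set_option autoImplicit false
set_option linter.unusedSectionVars false

/-!
# The concentration inequality for Hamming-Lipschitz maps into the vector valued James space
-/

open Filter Topology

namespace Pool.Agent.T6.H55.JH

variable {H : Type*} [NormedAddCommGroup H] [InnerProductSpace ℝ H]

theorem inner_le_of (x y : H) {c : ℝ} (h : ‖x‖ * ‖y‖ ≤ c) : inner ℝ x y ≤ c :=
  (real_inner_le_norm x y).trans h

theorem perturb_V {F D : ℕ → H} {N : ℕ} {L S v : ℝ} (hL : 1 ≤ L) (hV : Vle F v)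
    (hS : ∀ t, ‖F t‖ ^ 2 ≤ S)
    (htail : ∀ (r : ℕ) (p : ℕ → ℕ), Monotone p → N ≤ p 0 →
      ∑ i ∈ Finset.range r, ‖F (p (i + 1)) - F (p i)‖ ^ 2 ≤ 1 / (1024 * L ^ 2))
    (hD : Nle D (2 * L))
    (hsmall : ∀ s t, s ≤ N → t ≤ N → |inner ℝ (F s) (D t)| ≤ 1 / (64 * ((N : ℝ) + 1))) :
    Vle (F + D) (v + (5 * L ^ 2 + 8 * L * √S)) := by
  intro r p hp
  have hL0 : 0 < L := by linarith
  set η : ℝ := 1 / (64 * ((N : ℝ) + 1)) with hη
  have hN0 : (0 : ℝ) ≤ N := Nat.cast_nonneg N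
  have hη0 : 0 ≤ η := by positivity
  have hηN : 8 * η * N ≤ 1 / 8 := by
    rw [hη, mul_one_div, div_mul_eq_mul_div, div_le_div_iff₀ (by positivity) (by norm_num)]
    nlinarith
  have hη1 : 4 * η ≤ 1 / 16 := by
    rw [hη, mul_one_div, div_le_div_iff₀ (by positivity) (by norm_num)]
    nlinarith
  have hSn : ∀ t, ‖F t‖ ≤ √S := fun t => Real.le_sqrt_of_sq_le (hS t)
  have hDn : ∀ t, ‖D t‖ ≤ 2 * L := hD.apply
  have hFN : ∀ b, N ≤ b → ‖F b - F N‖ ≤ 1 / (32 * L) := by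
    intro b hb
    have h1 := htail 1 (fun i => if i = 0 then N else b) (by
      refine monotone_nat_of_le_succ fun i => ?_
      by_cases h0 : i = 0
      · simp [h0, hb]
      · simp [h0]) (by simp)
    simp only [Finset.sum_range_one] at h1
    have h2 : ‖F b - F N‖ ^ 2 ≤ (1 / (32 * L)) ^ 2 := by
      have e : (1 / (32 * L)) ^ 2 = 1 / (1024 * L ^ 2) := by
        rw [div_pow, mul_pow]
        norm_num
      rw [e]
      simpa using h1
    exact (sq_le_sq₀ (norm_nonneg _) (by positivity)).1 h2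
  let g : ℕ → ℝ := fun i => if N < p i then 1 else 0
  have hg : ∀ i, 0 ≤ g (i + 1) - g i := by
    intro i
    show 0 ≤ (if N < p (i + 1) then (1 : ℝ) else 0) - (if N < p i then 1 else 0)
    by_cases h1 : N < p i
    · rw [if_pos h1, if_pos (lt_of_lt_of_le h1 (hp (Nat.le_succ i)))]
      simp
    · rw [if_neg h1]
      split_ifs <;> simp
  set c4 : ℝ := 8 * L * √S + 1 / 8 + 4 * η with hc4
  have hc40 : 0 ≤ c4 := by positivity
  -- the bound of one term
  have hterm : ∀ i, 2 * inner ℝ (F (p (i + 1)) - F (p i)) (D (p (i + 1)) - D (p i)) ≤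
      8 * η * ((min (p (i + 1)) N : ℕ) - (min (p i) N : ℕ) : ℝ) +
      16 * L ^ 2 * ‖F (max (p (i + 1)) N) - F (max (p i) N)‖ ^ 2 +
      (16 * L ^ 2)⁻¹ * ‖D (p (i + 1)) - D (p i)‖ ^ 2 + c4 * (g (i + 1) - g i) := by
    intro i
    have hab : p i ≤ p (i + 1) := hp (Nat.le_succ i)
    have hgi := hg i
    have hp2 : 0 ≤ 16 * L ^ 2 * ‖F (max (p (i + 1)) N) - F (max (p i) N)‖ ^ 2 := by positivity
    have hp3 : 0 ≤ (16 * L ^ 2)⁻¹ * ‖D (p (i + 1)) - D (p i)‖ ^ 2 := by positivity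
    have hp4 : 0 ≤ c4 * (g (i + 1) - g i) := mul_nonneg hc40 hgi
    have hmin : (0 : ℝ) ≤ ((min (p (i + 1)) N : ℕ) - (min (p i) N : ℕ) : ℝ) := by
      rw [sub_nonneg]
      exact_mod_cast min_le_min_right N hab
    have hp1 : 0 ≤ 8 * η * ((min (p (i + 1)) N : ℕ) - (min (p i) N : ℕ) : ℝ) :=
      mul_nonneg (by positivity) hmin
    set a := p i with ha
    set b := p (i + 1) with hb
    rcases le_or_gt b N with hbN | hbN
    · -- both points are at most `N`
      rcases hab.eq_or_lt with he | hlt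
      · rw [he, sub_self, inner_zero_left, mul_zero]
        rw [he] at hp1 hp2
        simp only [sub_self, norm_zero] at *
        positivity
      · have h1 := (abs_le.1 (hsmall b b hbN hbN)).2
        have h2 := (abs_le.1 (hsmall b a hbN (hab.trans hbN))).1
        have h3 := (abs_le.1 (hsmall a b (hab.trans hbN) hbN)).1
        have h4 := (abs_le.1 (hsmall a a (hab.trans hbN) (hab.trans hbN))).2
        have h5 : inner ℝ (F b - F a) (D b - D a) ≤ 4 * η := by
          rw [inner_sub_left, inner_sub_right, inner_sub_right]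
          linarith
        have h6 : (1 : ℝ) ≤ ((min b N : ℕ) - (min a N : ℕ) : ℝ) := by
          rw [min_eq_left hbN, min_eq_left (hab.trans hbN), le_sub_iff_add_le]
          exact_mod_cast (by omega : 1 + a ≤ b)
        nlinarith
    · rcases lt_or_ge a N with haN | haN
      · -- the crossing term
        have hg1 : g (i + 1) - g i = 1 := by
          show (if N < p (i + 1) then (1 : ℝ) else 0) - (if N < p i then 1 else 0) = 1
          rw [if_pos hbN, if_neg (by omega), sub_zero]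
        rw [hg1, mul_one] at hp4 ⊢
        have e : inner ℝ (F b - F a) (D b - D a) = inner ℝ (F b - F a) (D b) +
            inner ℝ (F N - F b) (D a) - inner ℝ (F N) (D a) + inner ℝ (F a) (D a) := by
          simp only [inner_sub_left, inner_sub_right]
          ring
        have h1 : inner ℝ (F b - F a) (D b) ≤ 4 * L * √S := by
          refine inner_le_of _ _ ?_
          have h7 : ‖F b - F a‖ ≤ √S + √S := (norm_sub_le _ _).trans (add_le_add (hSn b) (hSn a))
          calc ‖F b - F a‖ * ‖D b‖ ≤ (√S + √S) * (2 * L) :=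
                mul_le_mul h7 (hDn b) (norm_nonneg _) (by positivity)
            _ = 4 * L * √S := by ring
        have h2 : inner ℝ (F N - F b) (D a) ≤ 1 / 16 := by
          refine inner_le_of _ _ ?_
          rw [norm_sub_rev]
          calc ‖F b - F N‖ * ‖D a‖ ≤ (1 / (32 * L)) * (2 * L) :=
                mul_le_mul (hFN b hbN.le) (hDn a) (norm_nonneg _) (by positivity)
            _ = 1 / 16 := by field_simp; norm_num
        have h3 := (abs_le.1 (hsmall N a le_rfl haN.le)).1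
        have h4 := (abs_le.1 (hsmall a a haN.le haN.le)).2
        rw [e]
        linarith
      · -- both points are at least `N`
        rw [max_eq_left hbN.le, max_eq_left haN]
        have h1 := real_inner_le_norm (F b - F a) (D b - D a)
        have h2 : 2 * (‖F b - F a‖ * ‖D b - D a‖) ≤
            16 * L ^ 2 * ‖F b - F a‖ ^ 2 + (16 * L ^ 2)⁻¹ * ‖D b - D a‖ ^ 2 := by
          have h3 := sq_nonneg (4 * L * ‖F b - F a‖ - (4 * L)⁻¹ * ‖D b - D a‖)
          have e1 : (4 * L * ‖F b - F a‖ - (4 * L)⁻¹ * ‖D b - D a‖) ^ 2 =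
              16 * L ^ 2 * ‖F b - F a‖ ^ 2 + (16 * L ^ 2)⁻¹ * ‖D b - D a‖ ^ 2 -
              2 * (‖F b - F a‖ * ‖D b - D a‖) := by
            field_simp
            ring
          linarith
        linarith
  -- summation
  have hsum := Finset.sum_le_sum fun i (_ : i ∈ Finset.range r) => hterm i
  rw [Finset.sum_add_distrib, Finset.sum_add_distrib, Finset.sum_add_distrib, ← Finset.mul_sum,
    ← Finset.mul_sum, ← Finset.mul_sum, ← Finset.mul_sum, ← Finset.mul_sum,
    Finset.sum_range_sub (fun i => ((min (p i) N : ℕ) : ℝ)), Finset.sum_range_sub g] at hsum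
  have h1 : ((min (p r) N : ℕ) : ℝ) - ((min (p 0) N : ℕ) : ℝ) ≤ N := by
    have h2 : ((min (p r) N : ℕ) : ℝ) ≤ N := by exact_mod_cast min_le_right _ _
    have h3 : (0 : ℝ) ≤ ((min (p 0) N : ℕ) : ℝ) := Nat.cast_nonneg _
    linarith
  have h2 : g r - g 0 ≤ 1 := by
    show (if N < p r then (1 : ℝ) else 0) - (if N < p 0 then 1 else 0) ≤ 1
    split_ifs <;> norm_num
  have h3 := htail r (fun i => max (p i) N) (fun i j hij => max_le_max_right N (hp hij))
    (le_max_right _ _)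
  have h4 := hD.vle r p hp
  have h5 := hV r p hp
  have h6 : ∑ i ∈ Finset.range r, ‖(F + D) (p (i + 1)) - (F + D) (p i)‖ ^ 2 =
      ∑ i ∈ Finset.range r, ‖F (p (i + 1)) - F (p i)‖ ^ 2 +
      2 * ∑ i ∈ Finset.range r, inner ℝ (F (p (i + 1)) - F (p i)) (D (p (i + 1)) - D (p i)) +
      ∑ i ∈ Finset.range r, ‖D (p (i + 1)) - D (p i)‖ ^ 2 := by
    rw [Finset.mul_sum, ← Finset.sum_add_distrib, ← Finset.sum_add_distrib]
    refine Finset.sum_congr rfl fun i _ => ?_
    rw [← norm_add_sq_real]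
    congr 2
    simp only [Pi.add_apply]
    abel
  rw [h6]
  have e1 : 16 * L ^ 2 * (1 / (1024 * L ^ 2)) = 1 / 64 := by field_simp; norm_num
  have e2 : (16 * L ^ 2)⁻¹ * (2 * L) ^ 2 = 1 / 4 := by field_simp; norm_num
  have h7 : 16 * L ^ 2 * ∑ i ∈ Finset.range r, ‖F (max (p (i + 1)) N) - F (max (p i) N)‖ ^ 2 ≤
      1 / 64 := by
    rw [← e1]
    exact mul_le_mul_of_nonneg_left h3 (by positivity)
  have h8 : (16 * L ^ 2)⁻¹ * ∑ i ∈ Finset.range r, ‖D (p (i + 1)) - D (p i)‖ ^ 2 ≤ 1 / 4 := by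
    rw [← e2]
    exact mul_le_mul_of_nonneg_left h4 (by positivity)
  have h9 : 8 * η * (((min (p r) N : ℕ) : ℝ) - ((min (p 0) N : ℕ) : ℝ)) ≤ 1 / 8 :=
    (mul_le_mul_of_nonneg_left h1 (by positivity)).trans hηN
  have h10 : c4 * (g r - g 0) ≤ c4 := mul_le_of_le_one_right hc40 h2
  have h11 : (1 : ℝ) ≤ L ^ 2 := one_le_pow₀ hL
  nlinarith

theorem perturb_S {F D : ℕ → H} {N : ℕ} {L S R : ℝ} {A : H} (hL : 1 ≤ L)
    (hS : ∀ t, ‖F t‖ ^ 2 ≤ S)
    (htail : ∀ (r : ℕ) (p : ℕ → ℕ), Monotone p → N ≤ p 0 →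
      ∑ i ∈ Finset.range r, ‖F (p (i + 1)) - F (p i)‖ ^ 2 ≤ 1 / (1024 * L ^ 2))
    (hD : Nle D (2 * L))
    (hsmall : ∀ s t, s ≤ N → t ≤ N → |inner ℝ (F s) (D t)| ≤ 1 / (64 * ((N : ℝ) + 1)))
    (hA : IsWlim F A) (hR : ‖A‖ ^ 2 ≤ R) (hSR : 2 * R + 18 * L ^ 2 ≤ S) (t : ℕ) :
    ‖(F + D) t‖ ^ 2 ≤ S + 10 * L ^ 2 := by
  have hL0 : 0 < L := by linarith
  have hN0 : (0 : ℝ) ≤ N := Nat.cast_nonneg N
  have hDn : ∀ t, ‖D t‖ ≤ 2 * L := hD.apply
  have h11 : (1 : ℝ) ≤ L ^ 2 := one_le_pow₀ hL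
  have hFN : ∀ b, N ≤ b → ‖F b - F N‖ ≤ 1 / (32 * L) := by
    intro b hb
    have h1 := htail 1 (fun i => if i = 0 then N else b) (by
      refine monotone_nat_of_le_succ fun i => ?_
      by_cases h0 : i = 0
      · simp [h0, hb]
      · simp [h0]) (by simp)
    simp only [Finset.sum_range_one] at h1
    have h2 : ‖F b - F N‖ ^ 2 ≤ (1 / (32 * L)) ^ 2 := by
      have e : (1 / (32 * L)) ^ 2 = 1 / (1024 * L ^ 2) := by
        rw [div_pow, mul_pow]
        norm_num
      rw [e]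
      simpa using h1
    exact (sq_le_sq₀ (norm_nonneg _) (by positivity)).1 h2
  have hsm : 1 / (32 * L) ≤ 1 / 32 := by
    rw [div_le_div_iff₀ (by positivity) (by norm_num)]
    linarith
  show ‖F t + D t‖ ^ 2 ≤ _
  rcases le_or_gt t N with ht | ht
  · rw [norm_add_sq_real]
    have h1 := (abs_le.1 (hsmall t t ht ht)).2
    have h2 : 1 / (64 * ((N : ℝ) + 1)) ≤ 1 / 64 := by
      rw [div_le_div_iff₀ (by positivity) (by norm_num)]
      nlinarith
    have h3 : ‖D t‖ ^ 2 ≤ (2 * L) ^ 2 := pow_le_pow_left₀ (norm_nonneg _) (hDn t) 2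
    have h4 := hS t
    nlinarith
  · have h1 : ‖A - F N‖ ≤ 1 / (32 * L) := by
      refine (hA.sub_const (F N)).norm_le ?_
      filter_upwards [U_gt N] with n hn
      exact hFN n hn.le
    have h2 : ‖F N‖ ≤ ‖A‖ + 1 / 32 := by
      have := norm_sub_norm_le (F N) A
      rw [norm_sub_rev] at this
      linarith
    have h3 : ‖F t + D t‖ ≤ ‖A‖ + 3 * L := by
      have e : F t + D t = (F t - F N) + F N + D t := by abel
      have h4 := norm_add₃_le (a := F t - F N) (b := F N) (c := D t)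
      rw [← e] at h4
      have h5 := hFN t ht.le
      have h6 := hDn t
      linarith
    have h4 : ‖F t + D t‖ ^ 2 ≤ (‖A‖ + 3 * L) ^ 2 := pow_le_pow_left₀ (norm_nonneg _) h3 2
    nlinarith [sq_nonneg (‖A‖ - 3 * L)]

/-! ### Iterated limits -/

/-- admissible tuples: strictly increasing, with entries larger than `b` -/
def Adm (b : ℕ) {K : ℕ} (x : Fin K → ℕ) : Prop := StrictMono x ∧ ∀ i, b < x i

theorem Adm.mono {b b' K : ℕ} {x : Fin K → ℕ} (h : Adm b' x) (hb : b ≤ b') : Adm b x :=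
  ⟨h.1, fun i => lt_of_le_of_lt hb (h.2 i)⟩

theorem Adm.cons {b n K : ℕ} {x : Fin K → ℕ} (hb : b < n) (hx : Adm n x) :
    Adm b (Fin.cons n x : Fin (K + 1) → ℕ) := by
  refine ⟨?_, ?_⟩
  · intro i j hij
    rcases Fin.eq_zero_or_eq_succ j with rfl | ⟨j, rfl⟩
    · exact absurd hij (Fin.not_lt_zero i)
    · rcases Fin.eq_zero_or_eq_succ i with rfl | ⟨i, rfl⟩
      · rw [Fin.cons_zero, Fin.cons_succ]
        exact hx.2 j
      · rw [Fin.cons_succ, Fin.cons_succ]
        exact hx.1 (Fin.succ_lt_succ_iff.1 hij)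
  · intro i
    rcases Fin.eq_zero_or_eq_succ i with rfl | ⟨i, rfl⟩
    · rw [Fin.cons_zero]; exact hb
    · rw [Fin.cons_succ]; exact hb.trans (hx.2 i)

/-- fix the first entry -/
def sh {K : ℕ} (f : (Fin (K + 1) → ℕ) → ℕ → H) (n : ℕ) : (Fin K → ℕ) → ℕ → H :=
  fun r => f (Fin.cons n r)

/-- `f` is bounded by `C` on the admissible tuples -/
def Bd (b K : ℕ) (f : (Fin K → ℕ) → ℕ → H) (C : ℝ) : Prop := ∀ x, Adm b x → Nle (f x) C

/-- changing one entry changes `f` by at most `L` -/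
def Lp (b K : ℕ) (f : (Fin K → ℕ) → ℕ → H) (L : ℝ) : Prop :=
  ∀ (x y : Fin K → ℕ) (i₀ : Fin K), Adm b x → Adm b y → (∀ i, i ≠ i₀ → x i = y i) →
    Nle (f x - f y) L

theorem Bd.sh {b n K : ℕ} {f : (Fin (K + 1) → ℕ) → ℕ → H} {C : ℝ} (h : Bd b (K + 1) f C)
    (hn : b < n) : Bd n K (sh f n) C := fun _ hx => h _ (hx.cons hn)

theorem Bd.mono {b b' K : ℕ} {f : (Fin K → ℕ) → ℕ → H} {C : ℝ} (h : Bd b K f C)
    (hb : b ≤ b') : Bd b' K f C := fun x hx => h x (hx.mono hb)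

theorem Lp.mono {b b' K : ℕ} {f : (Fin K → ℕ) → ℕ → H} {L : ℝ} (h : Lp b K f L)
    (hb : b ≤ b') : Lp b' K f L := fun x y i hx hy => h x y i (hx.mono hb) (hy.mono hb)

theorem Lp.sh {b n K : ℕ} {f : (Fin (K + 1) → ℕ) → ℕ → H} {L : ℝ} (h : Lp b (K + 1) f L)
    (hn : b < n) : Lp n K (sh f n) L := by
  intro x y i₀ hx hy hxy
  refine h _ _ i₀.succ (hx.cons hn) (hy.cons hn) fun i hi => ?_
  rcases Fin.eq_zero_or_eq_succ i with rfl | ⟨i, rfl⟩
  · rw [Fin.cons_zero, Fin.cons_zero]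
  · rw [Fin.cons_succ, Fin.cons_succ]
    exact hxy i fun h => hi (by rw [h])

theorem Lp.diff {b n m K : ℕ} {f : (Fin (K + 1) → ℕ) → ℕ → H} {L : ℝ} (h : Lp b (K + 1) f L)
    (hn : b < n) (hm : b < m) : Bd (max n m) K (fun r => JH.sh f n r - JH.sh f m r) L := by
  intro x hx
  refine h _ _ 0 ((hx.mono (le_max_left _ _)).cons hn) ((hx.mono (le_max_right _ _)).cons hm)
    fun i hi => ?_
  rcases Fin.eq_zero_or_eq_succ i with rfl | ⟨i, rfl⟩
  · exact absurd rfl hi
  · rw [Fin.cons_succ, Fin.cons_succ]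

variable [CompleteSpace H]

/-- the iterated weak limit -/
noncomputable def LimH : (K : ℕ) → ((Fin K → ℕ) → H) → H
  | 0, f => f fun i => i.elim0
  | K + 1, f => wlim (fun n => LimH K (fun r => f (Fin.cons n r)))

/-- the iterated weak limit, pointwise -/
noncomputable def Lim (K : ℕ) (f : (Fin K → ℕ) → ℕ → H) : ℕ → H :=
  fun t => LimH K (fun r => f r t)

/-- `gam j K f`: integrate out the last `K - j` variables, take the value at infinity, integrate
out the other variables. -/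
noncomputable def gam : ℕ → (K : ℕ) → ((Fin K → ℕ) → ℕ → H) → H
  | 0, K, f => wlim (Lim K f)
  | _ + 1, 0, _ => 0
  | j + 1, K + 1, f => wlim (fun n => gam j K (sh f n))

theorem isWlim_Lim_of {K b : ℕ} {f : (Fin (K + 1) → ℕ) → ℕ → H} {C : ℝ} (hC : 0 ≤ C)
    (h : ∀ n, b < n → Nle (Lim K (sh f n)) C) (t : ℕ) :
    IsWlim (fun n => Lim K (sh f n) t) (Lim (K + 1) f t) := by
  refine isWlim_wlim (fun n => Lim K (sh f n) t) C hC ?_
  filter_upwards [U_gt b] with n hn
  exact (h n hn).apply t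

theorem nle_Lim : ∀ (K : ℕ) (f : (Fin K → ℕ) → ℕ → H) (b : ℕ) (C : ℝ), 0 ≤ C → Bd b K f C →
    Nle (Lim K f) C := by
  intro K
  induction K with
  | zero =>
    intro f b C _ h
    exact h _ ⟨fun i => i.elim0, fun i => i.elim0⟩
  | succ K ih =>
    intro f b C hC h
    have h1 : ∀ n, b < n → Nle (Lim K (sh f n)) C := fun n hn => ih _ n C hC (h.sh hn)
    refine nle_of_wlim (y := fun n => Lim K (sh f n)) ?_ (isWlim_Lim_of hC h1)
    filter_upwards [U_gt b] with n hn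
    exact h1 n hn

theorem isWlim_Lim {K b : ℕ} {f : (Fin (K + 1) → ℕ) → ℕ → H} {C : ℝ} (hC : 0 ≤ C)
    (h : Bd b (K + 1) f C) (t : ℕ) :
    IsWlim (fun n => Lim K (sh f n) t) (Lim (K + 1) f t) :=
  isWlim_Lim_of hC (fun n hn => nle_Lim K _ n C hC (h.sh hn)) t

theorem IsWlim.congr {x y : ℕ → H} {w : H} (h : IsWlim x w)
    (hxy : ∀ᶠ n in (U : Filter ℕ), x n = y n) : IsWlim y w := by
  intro v
  refine (h v).congr' ?_
  filter_upwards [hxy] with n hn
  rw [hn]

theorem Lim_sub : ∀ (K : ℕ) (f g : (Fin K → ℕ) → ℕ → H) (b : ℕ) (C : ℝ), 0 ≤ C → Bd b K f C →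
    Bd b K g C → Lim K (fun r => f r - g r) = Lim K f - Lim K g := by
  intro K
  induction K with
  | zero => intro f g b C _ _ _; rfl
  | succ K ih =>
    intro f g b C hC hf hg
    funext t
    have h1 := (isWlim_Lim hC hf t).sub (isWlim_Lim hC hg t)
    refine IsWlim.wlim_eq (h1.congr ?_)
    filter_upwards [U_gt b] with n hn
    exact (congrFun (ih (sh f n) (sh g n) n C hC (hf.sh hn) (hg.sh hn)) t).symm

theorem isWlim_gam_zero {K b : ℕ} {f : (Fin K → ℕ) → ℕ → H} {C : ℝ} (hC : 0 ≤ C)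
    (h : Bd b K f C) : IsWlim (Lim K f) (gam 0 K f) := by
  have e : gam 0 K f = wlim (Lim K f) := by
    cases K <;> rfl
  rw [e]
  exact isWlim_wlim _ C hC (Eventually.of_forall (nle_Lim K f b C hC h).apply)

theorem norm_gam_le : ∀ (j K : ℕ) (f : (Fin K → ℕ) → ℕ → H) (b : ℕ) (C : ℝ), 0 ≤ C →
    Bd b K f C → ‖gam j K f‖ ≤ C := by
  intro j
  induction j with
  | zero =>
    intro K f b C hC h
    exact (isWlim_gam_zero hC h).norm_le (Eventually.of_forall (nle_Lim K f b C hC h).apply)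
  | succ j ih =>
    intro K f b C hC h
    cases K with
    | zero =>
      show ‖(0 : H)‖ ≤ C
      rwa [norm_zero]
    | succ K =>
      have h1 : ∀ᶠ n in (U : Filter ℕ), ‖gam j K (sh f n)‖ ≤ C := by
        filter_upwards [U_gt b] with n hn
        exact ih K _ n C hC (h.sh hn)
      exact (isWlim_wlim (fun n => gam j K (sh f n)) C hC h1).norm_le h1

theorem isWlim_gam {j K b : ℕ} {f : (Fin (K + 1) → ℕ) → ℕ → H} {C : ℝ} (hC : 0 ≤ C)
    (h : Bd b (K + 1) f C) : IsWlim (fun n => gam j K (sh f n)) (gam (j + 1) (K + 1) f) := by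
  refine isWlim_wlim (fun n => gam j K (sh f n)) C hC ?_
  filter_upwards [U_gt b] with n hn
  exact norm_gam_le j K _ n C hC (h.sh hn)

theorem gam_sub : ∀ (j K : ℕ) (f g : (Fin K → ℕ) → ℕ → H) (b : ℕ) (C : ℝ), 0 ≤ C → Bd b K f C →
    Bd b K g C → gam j K (fun r => f r - g r) = gam j K f - gam j K g := by
  intro j
  induction j with
  | zero =>
    intro K f g b C hC hf hg
    have h1 := (isWlim_gam_zero hC hf).sub (isWlim_gam_zero hC hg)
    have e : gam 0 K (fun r => f r - g r) = wlim (Lim K (fun r => f r - g r)) := by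
      cases K <;> rfl
    rw [e]
    refine IsWlim.wlim_eq (h1.congr (Eventually.of_forall fun t => ?_))
    exact (congrFun (Lim_sub K f g b C hC hf hg) t).symm
  | succ j ih =>
    intro K f g b C hC hf hg
    cases K with
    | zero => show (0 : H) = 0 - 0; rw [sub_zero]
    | succ K =>
      have h1 := (isWlim_gam (j := j) hC hf).sub (isWlim_gam (j := j) hC hg)
      refine IsWlim.wlim_eq (h1.congr ?_)
      filter_upwards [U_gt b] with n hn
      exact (ih K (sh f n) (sh g n) n C hC (hf.sh hn) (hg.sh hn)).symm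

/-- the first differences -/
theorem nle_diff {K b n : ℕ} {f : (Fin (K + 1) → ℕ) → ℕ → H} {C L : ℝ} (hC : 0 ≤ C) (hL : 0 ≤ L)
    (h : Bd b (K + 1) f C) (hLp : Lp b (K + 1) f L) (hn : b < n) :
    Nle (Lim K (sh f n) - Lim (K + 1) f) L := by
  refine nle_of_wlim (y := fun m => Lim K (sh f n) - Lim K (sh f m)) ?_
    (fun t => (isWlim_Lim hC h t).const_sub _)
  filter_upwards [U_gt b] with m hm
  have h1 := Lim_sub K (sh f n) (sh f m) (max n m) C hC ((h.sh hn).mono (le_max_left _ _))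
    ((h.sh hm).mono (le_max_right _ _))
  rw [← h1]
  exact nle_Lim K _ (max n m) L hL (hLp.diff hn hm)

theorem norm_gam_diff {j K b n : ℕ} {f : (Fin (K + 1) → ℕ) → ℕ → H} {C L : ℝ} (hC : 0 ≤ C)
    (hL : 0 ≤ L) (h : Bd b (K + 1) f C) (hLp : Lp b (K + 1) f L) (hn : b < n) :
    ‖gam j K (sh f n) - gam (j + 1) (K + 1) f‖ ≤ L := by
  refine ((isWlim_gam (j := j) hC h).const_sub (gam j K (sh f n))).norm_le ?_
  filter_upwards [U_gt b] with m hm
  have h1 := gam_sub j K (sh f n) (sh f m) (max n m) C hC ((h.sh hn).mono (le_max_left _ _))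
    ((h.sh hm).mono (le_max_right _ _))
  rw [← h1]
  exact norm_gam_le j K _ (max n m) L hL (hLp.diff hn hm)

/-- the choice of one entry -/
theorem choose_one {K b : ℕ} {f : (Fin (K + 1) → ℕ) → ℕ → H} {C L : ℝ} (hC : 0 ≤ C)
    (hL : 0 ≤ L) (h : Bd b (K + 1) f C) (hLp : Lp b (K + 1) f L) (F : ℕ → H) (A : ℕ → H)
    (N : ℕ) {η : ℝ} (hη : 0 < η) (b' : ℕ) :
    ∃ n, b < n ∧ b' < n ∧ Nle (Lim K (sh f n) - Lim (K + 1) f) L ∧
      (∀ s t, s ≤ N → t ≤ N → |inner ℝ (F s) ((Lim K (sh f n) - Lim (K + 1) f) t)| ≤ η) ∧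
      (∀ j, j ≤ K → ‖gam j K (sh f n) - gam (j + 1) (K + 1) f‖ ≤ L ∧
        |inner ℝ (A (j + 1)) (gam j K (sh f n) - gam (j + 1) (K + 1) f)| ≤ η) := by
  have h1 : ∀ s t, ∀ᶠ n in (U : Filter ℕ),
      |inner ℝ (F s) ((Lim K (sh f n) - Lim (K + 1) f) t)| ≤ η := by
    intro s t
    have h2 := ((isWlim_Lim hC h t).sub_const (Lim (K + 1) f t)) (F s)
    rw [sub_self, inner_zero_left] at h2
    have h3 := (Metric.tendsto_nhds.1 h2) η hη
    filter_upwards [h3] with n hn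
    rw [dist_zero_right, Real.norm_eq_abs, real_inner_comm] at hn
    exact hn.le
  have h2 : ∀ᶠ n in (U : Filter ℕ), ∀ s ∈ Finset.range (N + 1), ∀ t ∈ Finset.range (N + 1),
      |inner ℝ (F s) ((Lim K (sh f n) - Lim (K + 1) f) t)| ≤ η := by
    rw [Filter.eventually_all_finset]
    intro s _
    rw [Filter.eventually_all_finset]
    intro t _
    exact h1 s t
  have h3 : ∀ᶠ n in (U : Filter ℕ), ∀ j ∈ Finset.range (K + 1),
      |inner ℝ (A (j + 1)) (gam j K (sh f n) - gam (j + 1) (K + 1) f)| ≤ η := by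
    rw [Filter.eventually_all_finset]
    intro j _
    have h4 := ((isWlim_gam (j := j) hC h).sub_const (gam (j + 1) (K + 1) f)) (A (j + 1))
    rw [sub_self, inner_zero_left] at h4
    have h5 := (Metric.tendsto_nhds.1 h4) η hη
    filter_upwards [h5] with n hn
    rw [dist_zero_right, Real.norm_eq_abs, real_inner_comm] at hn
    exact hn.le
  obtain ⟨n, hn1, hn2, hn3, hn4⟩ := ((U_gt b).and ((U_gt b').and (h2.and h3))).exists
  refine ⟨n, hn1, hn2, nle_diff hC hL h hLp hn1, fun s t hs ht => hn3 s ?_ t ?_, fun j hj =>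
    ⟨norm_gam_diff hC hL h hLp hn1, hn4 j ?_⟩⟩
  · exact Finset.mem_range.2 (by omega)
  · exact Finset.mem_range.2 (by omega)
  · exact Finset.mem_range.2 (by omega)

/-- The induction. -/
theorem main_ind (L : ℝ) (hL : 1 ≤ L) (Smax : ℝ) : ∀ (K : ℕ) (f f' : (Fin K → ℕ) → ℕ → H) (b : ℕ)
    (C v S R : ℝ), 0 ≤ C → Bd b K f C → Bd b K f' C → Lp b K f L → Lp b K f' L →
    Vle (Lim K f - Lim K f') v → (∀ t, ‖(Lim K f - Lim K f') t‖ ^ 2 ≤ S) →
    (∀ j, j ≤ K → ‖gam j K f - gam j K f'‖ ^ 2 ≤ R) → 2 * R + 18 * L ^ 2 ≤ S →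
    S + 10 * L ^ 2 * K ≤ Smax →
    ∃ x y : Fin K → ℕ, Adm b x ∧ Adm b y ∧ (∀ i j, x i ≠ y j) ∧
      Vle (f x - f' y) (v + K * (5 * L ^ 2 + 8 * L * √Smax)) ∧
      ∀ t, ‖(f x - f' y) t‖ ^ 2 ≤ Smax := by
  have hL0 : 0 ≤ L := by linarith
  have hL2 : (1 : ℝ) ≤ L ^ 2 := one_le_pow₀ hL
  intro K
  induction K with
  | zero =>
    intro f f' b C v S R hC _ _ _ _ hV hS _ _ hSm
    refine ⟨fun i => i.elim0, fun i => i.elim0, ⟨fun i => i.elim0, fun i => i.elim0⟩,
      ⟨fun i => i.elim0, fun i => i.elim0⟩, fun i => i.elim0, ?_, ?_⟩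
    · rw [Nat.cast_zero, zero_mul, add_zero]
      exact hV
    · intro t
      refine (hS t).trans ?_
      rwa [Nat.cast_zero, mul_zero, add_zero] at hSm
  | succ K ih =>
    intro f f' b C v S R hC hf hf' hLf hLf' hV hS hR hSR hSm
    set F : ℕ → H := Lim (K + 1) f - Lim (K + 1) f' with hF
    set A : ℕ → H := fun j => gam j (K + 1) f - gam j (K + 1) f' with hA
    obtain ⟨N, hN⟩ := hV.tail (show (0 : ℝ) < 1 / (1024 * L ^ 2) by positivity)
    set η : ℝ := 1 / (128 * ((N : ℝ) + 1)) with hη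
    have hη0 : 0 < η := by positivity
    have hη1 : η + η = 1 / (64 * ((N : ℝ) + 1)) := by
      rw [hη]; field_simp; norm_num
    have hη2 : η ≤ 1 / 128 := by
      have : (0 : ℝ) ≤ N := Nat.cast_nonneg N
      rw [hη, div_le_div_iff₀ (by positivity) (by norm_num)]
      nlinarith
    obtain ⟨n, hn, -, hn1, hn2, hn3⟩ := choose_one hC hL0 hf hLf F A N hη0 b
    obtain ⟨m, hm, hnm, hm1, hm2, hm3⟩ := choose_one hC hL0 hf' hLf' F A N hη0 n
    -- the new data
    set a : ℕ → H := Lim K (sh f n) - Lim (K + 1) f with ha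
    set c : ℕ → H := Lim K (sh f' m) - Lim (K + 1) f' with hc
    have hFD : Lim K (sh f n) - Lim K (sh f' m) = F + (a - c) := by
      rw [hF, ha, hc]; abel
    have hD : Nle (a - c) (2 * L) := (hn1.sub hm1).mono (by linarith)
    have hsm : ∀ s t, s ≤ N → t ≤ N → |inner ℝ (F s) ((a - c) t)| ≤ 1 / (64 * ((N : ℝ) + 1)) := by
      intro s t hs ht
      rw [Pi.sub_apply, inner_sub_right, ← hη1]
      exact (abs_sub _ _).trans (add_le_add (hn2 s t hs ht) (hm2 s t hs ht))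
    have hA0 : IsWlim F (A 0) := (isWlim_gam_zero hC hf).sub (isWlim_gam_zero hC hf')
    have hV' := perturb_V hL hV hS hN hD hsm
    have hS' := perturb_S hL hS hN hD hsm hA0 (hR 0 (Nat.zero_le _)) hSR
    rw [← hFD] at hV' hS'
    have hR' : ∀ j, j ≤ K → ‖gam j K (sh f n) - gam j K (sh f' m)‖ ^ 2 ≤ R + 5 * L ^ 2 := by
      intro j hj
      set α := gam j K (sh f n) - gam (j + 1) (K + 1) f with hα
      set β := gam j K (sh f' m) - gam (j + 1) (K + 1) f' with hβ
      have e : gam j K (sh f n) - gam j K (sh f' m) = A (j + 1) + (α - β) := by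
        show _ = (gam (j + 1) (K + 1) f - gam (j + 1) (K + 1) f') + (α - β)
        rw [hα, hβ]; abel
      have h1 := hR (j + 1) (by omega)
      have h2 := hn3 j hj
      have h3 := hm3 j hj
      have h4 : ‖α - β‖ ≤ 2 * L := (norm_sub_le _ _).trans (by linarith [h2.1, h3.1])
      have h5 : ‖α - β‖ ^ 2 ≤ (2 * L) ^ 2 := pow_le_pow_left₀ (norm_nonneg _) h4 2
      rw [e, norm_add_sq_real, inner_sub_right]
      have h6 := (abs_le.1 h2.2).2
      have h7 := (abs_le.1 h3.2).1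
      have h8 : ‖A (j + 1)‖ ^ 2 ≤ R := h1
      nlinarith
    have hm' : b < m := hm
    obtain ⟨x, y, hx, hy, hxy, hVf, hSf⟩ := ih (sh f n) (sh f' m) m C
      (v + (5 * L ^ 2 + 8 * L * √S)) (S + 10 * L ^ 2) (R + 5 * L ^ 2) hC
      ((hf.sh hn).mono hnm.le) (hf'.sh hm) ((hLf.sh hn).mono hnm.le) (hLf'.sh hm) hV' hS' hR'
      (by nlinarith) (by push_cast at hSm; nlinarith)
    refine ⟨Fin.cons n x, Fin.cons m y, (hx.mono hnm.le).cons hn, hy.cons hm, ?_, ?_, hSf⟩
    · intro i j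
      rcases Fin.eq_zero_or_eq_succ i with rfl | ⟨i, rfl⟩ <;>
      rcases Fin.eq_zero_or_eq_succ j with rfl | ⟨j, rfl⟩
      · rw [Fin.cons_zero, Fin.cons_zero]; exact hnm.ne
      · rw [Fin.cons_zero, Fin.cons_succ]; exact (hnm.trans (hy.2 j)).ne
      · rw [Fin.cons_zero, Fin.cons_succ]; exact (hx.2 i).ne'
      · rw [Fin.cons_succ, Fin.cons_succ]; exact hxy i j
    · intro r p hp
      refine (hVf r p hp).trans ?_
      have h1 : √S ≤ √Smax := by
        refine Real.sqrt_le_sqrt ?_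
        have : (0 : ℝ) ≤ 10 * L ^ 2 * ((K + 1 : ℕ) : ℝ) := by positivity
        linarith
      have h2 : 8 * L * √S ≤ 8 * L * √Smax := mul_le_mul_of_nonneg_left h1 (by positivity)
      push_cast
      linarith

end Pool.Agent.T6.H55.JH
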