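import Pool.Agent.T6.H37.PA.Defs

/-!
# Partition rank and analytic rank: from large fields to all fields

Extension of scalars to the extension of degree `k`. Owner helper55 (module G of the project of
helper37).
-/

set_option autoImplicit false
set_option linter.unusedSectionVars false
set_option linter.unusedVariables false

open Finset Function

namespace Pool.Agent.T6.H37.PA

/-! ### positive correlation of sets whose coordinate fibres are subgroups -/

section corr

variable {P : Type} [Fintype P] [DecidableEq P] {X : P → Type} [∀ p, AddCommGroup (X p)]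
  [∀ p, Fintype (X p)]

/-- all coordinate fibres are subgroups (if they are not empty) -/
def FibSub (A : Set (∀ p, X p)) : Prop :=
  ∀ (p : P) (z : ∀ p, X p) (u w : X p), update z p u ∈ A → update z p w ∈ A →
    update z p (u - w) ∈ A

/-- the pairs which agree on `s` -/
def Prs (A B : Set (∀ p, X p)) (s : Finset P) : Set ((∀ p, X p) × (∀ p, X p)) :=
  {z | z.1 ∈ A ∧ z.2 ∈ B ∧ ∀ q ∈ s, z.1 q = z.2 q}

lemma card_step {A B : Set (∀ p, X p)} (hA : FibSub A) (hB : FibSub B) {s : Finset P} {p : P}
    (hp : p ∉ s) : Nat.card (Prs A B s) ≤ Nat.card (Prs A B (insert p s)) * Fintype.card (X p) := by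
  classical
  -- the choice of a representation
  let Rep : (∀ p, X p) → (∀ p, X p) → X p → X p × X p → Prop := fun y y' t c =>
    update y p c.1 ∈ A ∧ update y' p c.2 ∈ B ∧ c.1 - c.2 = t
  let ch : (∀ p, X p) → (∀ p, X p) → X p → X p × X p := fun y y' t =>
    if h : ∃ c, Rep y y' t c then h.choose else 0
  have hch : ∀ y y' t, (∃ c, Rep y y' t c) → Rep y y' t (ch y y' t) := by
    intro y y' t h
    simp only [ch, dif_pos h]
    exact h.choose_spec
  let b : (∀ p, X p) → (∀ p, X p) := fun z => update z p 0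
  have hex : ∀ z : Prs A B s, Rep (b z.1.1) (b z.1.2) (z.1.1 p - z.1.2 p)
      (ch (b z.1.1) (b z.1.2) (z.1.1 p - z.1.2 p)) := by
    intro z
    refine hch _ _ _ ⟨(z.1.1 p, z.1.2 p), ?_, ?_, rfl⟩
    · simp only [b, update_idem, update_eq_self]
      exact z.2.1
    · simp only [b, update_idem, update_eq_self]
      exact z.2.2.1
  let cz : Prs A B s → X p × X p := fun z => ch (b z.1.1) (b z.1.2) (z.1.1 p - z.1.2 p)
  let Φ : Prs A B s → Prs A B (insert p s) × X p := fun z =>
    (⟨(update z.1.1 p (z.1.1 p - (cz z).1), update z.1.2 p (z.1.2 p - (cz z).2)), by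
      obtain ⟨h1, h2, h3⟩ := hex z
      refine ⟨hA p z.1.1 _ _ (by rw [update_eq_self]; exact z.2.1) ?_,
        hB p z.1.2 _ _ (by rw [update_eq_self]; exact z.2.2.1) ?_, ?_⟩
      · simpa only [b, update_idem] using h1
      · simpa only [b, update_idem] using h2
      · intro q hq
        rcases Finset.mem_insert.1 hq with rfl | hq
        · simp only [update_self]
          have h4 : (cz z).1 - (cz z).2 = z.1.1 q - z.1.2 q := h3
          have h5 : z.1.1 q - (cz z).1 - (z.1.2 q - (cz z).2) = 0 := by
            rw [sub_sub_sub_comm, h4, sub_self]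
          exact sub_eq_zero.1 h5
        · have hqp : q ≠ p := fun h => hp (h ▸ hq)
          simp only [update_of_ne hqp]
          exact z.2.2.2 q hq⟩, z.1.1 p - z.1.2 p)
  have hΦ : Injective Φ := by
    intro z z' h
    have h1 : (Φ z).1.1 = (Φ z').1.1 := by rw [h]
    have h2 : (Φ z).2 = (Φ z').2 := by rw [h]
    have e1 : update z.1.1 p (z.1.1 p - (cz z).1) = update z'.1.1 p (z'.1.1 p - (cz z').1) :=
      congrArg Prod.fst h1
    have e2 : update z.1.2 p (z.1.2 p - (cz z).2) = update z'.1.2 p (z'.1.2 p - (cz z').2) :=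
      congrArg Prod.snd h1
    have e3 : z.1.1 p - z.1.2 p = z'.1.1 p - z'.1.2 p := h2
    have b1 : b z.1.1 = b z'.1.1 := by
      have := congrArg (fun y => update y p (0 : X p)) e1
      simpa only [update_idem] using this
    have b2 : b z.1.2 = b z'.1.2 := by
      have := congrArg (fun y => update y p (0 : X p)) e2
      simpa only [update_idem] using this
    have hc : cz z = cz z' := by
      simp only [cz]
      rw [b1, b2, e3]
    have p1 : z.1.1 p = z'.1.1 p := by
      have := congrFun e1 p
      simp only [update_self, hc] at this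
      exact sub_left_injective this
    have p2 : z.1.2 p = z'.1.2 p := by
      have := congrFun e2 p
      simp only [update_self, hc] at this
      exact sub_left_injective this
    have q1 : z.1.1 = z'.1.1 := by
      have h3 := congrArg (fun y => update y p (z.1.1 p)) b1
      simp only [b, update_idem, update_eq_self] at h3
      rw [h3, p1, update_eq_self]
    have q2 : z.1.2 = z'.1.2 := by
      have h3 := congrArg (fun y => update y p (z.1.2 p)) b2
      simp only [b, update_idem, update_eq_self] at h3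
      rw [h3, p2, update_eq_self]
    exact Subtype.ext (Prod.ext q1 q2)
  have h1 := Nat.card_le_card_of_injective Φ hΦ
  rwa [Nat.card_prod, Nat.card_eq_fintype_card (α := X p)] at h1

lemma card_chain {A B : Set (∀ p, X p)} (hA : FibSub A) (hB : FibSub B) (s : Finset P) :
    Nat.card (Prs A B ∅) ≤ Nat.card (Prs A B s) * ∏ p ∈ s, Fintype.card (X p) := by
  induction s using Finset.induction_on with
  | empty => simp
  | insert p s hp ih =>
    rw [Finset.prod_insert hp, ← mul_assoc]
    exact ih.trans (Nat.mul_le_mul_right _ (card_step hA hB hp))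

/-- **positive correlation** -/
theorem card_mul_card_le {A B : Set (∀ p, X p)} (hA : FibSub A) (hB : FibSub B) :
    Nat.card A * Nat.card B ≤ Nat.card (A ∩ B : Set (∀ p, X p)) * Nat.card (∀ p, X p) := by
  have h1 := card_chain hA hB Finset.univ
  have h2 : Nat.card (Prs A B ∅) = Nat.card A * Nat.card B := by
    rw [← Nat.card_prod]
    refine Nat.card_congr
      { toFun := fun z => (⟨z.1.1, z.2.1⟩, ⟨z.1.2, z.2.2.1⟩)
        invFun := fun z => ⟨(z.1.1, z.2.1), z.1.2, z.2.2, by simp⟩
        left_inv := fun z => rfl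
        right_inv := fun z => rfl }
  have h3 : Nat.card (Prs A B Finset.univ) = Nat.card (A ∩ B : Set (∀ p, X p)) := by
    refine Nat.card_congr
      { toFun := fun z => ⟨z.1.1, z.2.1, by
          have : z.1.1 = z.1.2 := funext fun q => z.2.2.2 q (Finset.mem_univ q)
          rw [this]
          exact z.2.2.1⟩
        invFun := fun z => ⟨(z.1, z.1), z.2.1, z.2.2, fun _ _ => rfl⟩
        left_inv := fun z => by
          have : z.1.1 = z.1.2 := funext fun q => z.2.2.2 q (Finset.mem_univ q)
          exact Subtype.ext (Prod.ext rfl this)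
        right_inv := fun z => rfl }
  have h4 : Nat.card (∀ p, X p) = ∏ p, Fintype.card (X p) := by
    rw [Nat.card_eq_fintype_card, Fintype.card_pi]
  rw [h2, h3, ← h4] at h1
  exact h1

/-- the proportion -/
noncomputable def dn (A : Set (∀ p, X p)) : ℝ := (Nat.card A : ℝ) / (Nat.card (∀ p, X p) : ℝ)

lemma card_pos_pi : (0 : ℝ) < (Nat.card (∀ p, X p) : ℝ) := by
  exact_mod_cast Nat.card_pos

lemma dn_nonneg (A : Set (∀ p, X p)) : 0 ≤ dn A := by unfold dn; positivity

lemma dn_inter {A B : Set (∀ p, X p)} (hA : FibSub A) (hB : FibSub B) :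
    dn A * dn B ≤ dn (A ∩ B) := by
  unfold dn
  have h0 := card_pos_pi (X := X)
  rw [div_mul_div_comm, div_le_div_iff₀ (by positivity) h0]
  have h1 : (Nat.card A : ℝ) * Nat.card B ≤
      (Nat.card (A ∩ B : Set (∀ p, X p)) : ℝ) * Nat.card (∀ p, X p) := by
    exact_mod_cast card_mul_card_le hA hB
  nlinarith

lemma FibSub.iInter {Λ : Type} {A : Λ → Set (∀ p, X p)} (s : Finset Λ) (h : ∀ l, FibSub (A l)) :
    FibSub (⋂ l ∈ s, A l) := by
  intro p z u w hu hw
  simp only [Set.mem_iInter] at hu hw ⊢
  exact fun l hl => h l p z u w (hu l hl) (hw l hl)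

lemma dn_iInter {Λ : Type} [DecidableEq Λ] {A : Λ → Set (∀ p, X p)} (s : Finset Λ)
    (h : ∀ l, FibSub (A l)) : ∏ l ∈ s, dn (A l) ≤ dn (⋂ l ∈ s, A l) := by
  induction s using Finset.induction_on with
  | empty =>
    simp only [Finset.prod_empty, Finset.notMem_empty, Set.iInter_of_empty, Set.iInter_univ]
    unfold dn
    rw [Nat.card_congr (Equiv.Set.univ _), div_self (card_pos_pi (X := X)).ne']
  | insert l s hl ih =>
    rw [Finset.prod_insert hl, Finset.set_biInter_insert]
    exact (mul_le_mul_of_nonneg_left ih (dn_nonneg _)).trans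
      (dn_inter (h l) (FibSub.iInter s h))

end corr

/-! ### preimages -/

section pre

variable {R Q : Type} [AddCommGroup R] [AddCommGroup Q]

/-- the fibres of a surjection -/
noncomputable def preEquiv (π : R →+ Q) (hπ : Surjective π) (A : Set Q) :
    (π ⁻¹' A) ≃ A × π.ker where
  toFun r := (⟨π r.1, r.2⟩, ⟨r.1 - surjInv hπ (π r.1), by
    rw [AddMonoidHom.mem_ker, map_sub, surjInv_eq hπ, sub_self]⟩)
  invFun a := ⟨surjInv hπ a.1.1 + a.2.1, by
    have h : π a.2.1 = 0 := a.2.2
    rw [Set.mem_preimage, map_add, surjInv_eq hπ, h, add_zero]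
    exact a.1.2⟩
  left_inv r := by
    apply Subtype.ext
    simp
  right_inv a := by
    have h : π a.2.1 = 0 := a.2.2
    have h1 : π (surjInv hπ a.1.1 + a.2.1) = a.1.1 := by
      rw [map_add, surjInv_eq hπ, h, add_zero]
    refine Prod.ext (Subtype.ext h1) (Subtype.ext ?_)
    simp only [h1]
    abel

lemma card_pre (π : R →+ Q) (hπ : Surjective π) (A : Set Q) :
    Nat.card (π ⁻¹' A) * Nat.card Q = Nat.card A * Nat.card R := by
  have h1 := Nat.card_congr (preEquiv π hπ A)
  have h2 := Nat.card_congr (preEquiv π hπ Set.univ)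
  rw [Nat.card_prod] at h1 h2
  have h3 : Nat.card (π ⁻¹' Set.univ) = Nat.card R := by
    rw [Set.preimage_univ]
    exact Nat.card_congr (Equiv.Set.univ _)
  rw [h3, Nat.card_congr (Equiv.Set.univ Q)] at h2
  rw [h1, h2]
  ring

end pre

/-! ### extension of scalars -/

section ext

variable {F K : Type} [Field F] [Field K] [Algebra F K] {d : ℕ} {n : Fin (d + 2) → ℕ}

/-- the inclusion of the coordinate spaces -/
def inc (F K : Type) [Field F] [Field K] [Algebra F K] (m : ℕ) : (Fin m → F) →ₗ[F] (Fin m → K) :=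
  LinearMap.compLeft (Algebra.linearMap F K) (Fin m)

lemma inc_apply (m : ℕ) (x : Fin m → F) (a : Fin m) : inc F K m x a = algebraMap F K (x a) := rfl

variable (K) in
/-- the form over `K` with the same coefficients -/
noncomputable def TK (T : MForm F n) : MForm K n :=
  ∑ j : (i : Fin (d + 2)) → Fin (n i), algebraMap F K (T fun i => Pi.single (j i) 1) •
    (MultilinearMap.mkPiAlgebra K (Fin (d + 2)) K).compLinearMap fun i => LinearMap.proj (j i)

lemma TK_apply (T : MForm F n) (x : (i : Fin (d + 2)) → Fin (n i) → K) :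
    TK K T x = ∑ j : (i : Fin (d + 2)) → Fin (n i),
      algebraMap F K (T fun i => Pi.single (j i) 1) * ∏ i, x i (j i) := by
  unfold TK
  rw [_root_.sum_apply]
  rfl

lemma form_expand (T : MForm F n) (x : (i : Fin (d + 2)) → Fin (n i) → F) :
    T x = ∑ j : (i : Fin (d + 2)) → Fin (n i), (T fun i => Pi.single (j i) 1) * ∏ i, x i (j i) := by
  classical
  have h1 : x = fun i => ∑ a : Fin (n i), x i a • (Pi.single a 1 : Fin (n i) → F) := by
    funext i
    exact (pi_eq_sum_univ' (x i))
  conv_lhs => rw [h1]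
  rw [MultilinearMap.map_sum]
  refine Finset.sum_congr rfl fun j _ => ?_
  rw [MultilinearMap.map_smul_univ T (fun i => x i (j i)) (fun i => Pi.single (j i) 1),
    smul_eq_mul, mul_comm]

lemma TK_inc (T : MForm F n) (x : (i : Fin (d + 2)) → Fin (n i) → F) :
    TK K T (fun i => inc F K (n i) (x i)) = algebraMap F K (T x) := by
  rw [TK_apply, form_expand T x, map_sum]
  refine Finset.sum_congr rfl fun j _ => ?_
  rw [map_mul, map_prod]
  rfl

variable {k : ℕ} (ω : Module.Basis (Fin k) F K)

/-- the coordinates of a vector -/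
noncomputable def co {m : ℕ} (x : Fin m → K) (l : Fin k) : Fin m → F := fun a => ω.repr (x a) l

lemma co_sum {m : ℕ} (x : Fin m → K) : x = ∑ l, ω l • inc F K m (co ω x l) := by
  funext a
  rw [Finset.sum_apply]
  have h1 := ω.sum_repr (x a)
  conv_lhs => rw [← h1]
  refine Finset.sum_congr rfl fun l _ => ?_
  rw [Pi.smul_apply, inc_apply, smul_eq_mul, Algebra.smul_def, mul_comm]
  rfl

lemma TK_expand (T : MForm F n) (x : (i : Fin (d + 2)) → Fin (n i) → K) :
    TK K T x = ∑ l : Fin (d + 2) → Fin k, (∏ i, ω (l i)) *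
      algebraMap F K (T fun i => co ω (x i) (l i)) := by
  classical
  have h1 : x = fun i => ∑ l, ω l • inc F K (n i) (co ω (x i) l) := funext fun i => co_sum ω (x i)
  conv_lhs => rw [h1]
  rw [MultilinearMap.map_sum]
  refine Finset.sum_congr rfl fun l _ => ?_
  rw [MultilinearMap.map_smul_univ (TK K T) (fun i => ω (l i))
    (fun i => inc F K (n i) (co ω (x i) (l i))), smul_eq_mul, TK_inc]

/-- the zero set of a form -/
def ZS (T : MForm F n) : Set ((i : Fin (d + 2)) → Fin (n i) → F) :=
  {x | ∀ y : Fin (n 0) → F, T (Function.update x 0 y) = 0}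

/-- the projection to some of the coordinates -/
def prj (n : Fin (d + 2) → ℕ) (l : Fin (d + 2) → Fin k) :
    ((p : Fin (d + 2) × Fin k) → Fin (n p.1) → F) →+ ((i : Fin (d + 2)) → Fin (n i) → F) where
  toFun z i := z (i, l i)
  map_zero' := rfl
  map_add' _ _ := rfl

lemma prj_surj (l : Fin (d + 2) → Fin k) : Surjective (prj (F := F) n l) :=
  fun x => ⟨fun p => x p.1, rfl⟩

lemma ZS_fib (T : MForm F n) (l : Fin (d + 2) → Fin k) :
    FibSub (X := fun p : Fin (d + 2) × Fin k => Fin (n p.1) → F) (prj n l ⁻¹' ZS T) := by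
  classical
  intro p z u w hu hw
  rw [Set.mem_preimage] at hu hw ⊢
  by_cases h : l p.1 = p.2
  · have key : ∀ t : Fin (n p.1) → F, prj n l (update z p t) = update (prj n l z) p.1 t := by
      intro t
      funext i
      change update z p t (i, l i) = _
      by_cases hi : i = p.1
      · subst hi
        have : (p.1, l p.1) = p := Prod.ext rfl h
        rw [update_self]
        obtain ⟨p1, p2⟩ := p
        simp only at h
        subst h
        exact update_self _ _ _
      · rw [update_of_ne hi, update_of_ne (fun h' => hi (congrArg Prod.fst h'))]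
        rfl
    rw [key] at hu hw ⊢
    intro y
    have h1 := hu y
    have h2 := hw y
    by_cases h0 : p.1 = 0
    · obtain ⟨p1, p2⟩ := p
      simp only at h0
      subst h0
      rw [update_idem] at h1 ⊢
      exact h1
    · rw [update_comm h0] at h1 h2 ⊢
      rw [MultilinearMap.map_update_sub, h1, h2, sub_zero]
  · have key : ∀ t : Fin (n p.1) → F, prj n l (update z p t) = prj n l z := by
      intro t
      funext i
      change update z p t (i, l i) = z (i, l i)
      refine update_of_ne (fun h' => h ?_) _ _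
      rw [← h']
    rw [key] at hu ⊢
    exact hu

/-- the coordinates -/
noncomputable def coEquiv (n : Fin (d + 2) → ℕ) : ((i : Fin (d + 2)) → Fin (n i) → K) ≃
    ((p : Fin (d + 2) × Fin k) → Fin (n p.1) → F) where
  toFun x p := co ω (x p.1) p.2
  invFun z i := ∑ l, ω l • inc F K (n i) (z (i, l))
  left_inv x := by
    funext i
    exact (co_sum ω (x i)).symm
  right_inv z := by
    funext p a
    change ω.repr ((∑ l, ω l • inc F K (n p.1) (z (p.1, l))) a) p.2 = z p a
    rw [Finset.sum_apply]
    have h1 : ∑ l, (ω l • inc F K (n p.1) (z (p.1, l))) a = ∑ l, z (p.1, l) a • ω l := by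
      refine Finset.sum_congr rfl fun l _ => ?_
      rw [Pi.smul_apply, inc_apply, smul_eq_mul, Algebra.smul_def, mul_comm]
    rw [h1, ω.repr_sum_self]

/-- a sufficient condition for the vanishing over `K` -/
lemma mem_ZS_TK (T : MForm F n) {x : (i : Fin (d + 2)) → Fin (n i) → K}
    (h : ∀ l : Fin (d + 2) → Fin k, prj n l (coEquiv ω n x) ∈ ZS T) : x ∈ ZS (TK K T) := by
  classical
  intro y
  rw [TK_expand ω]
  refine Finset.sum_eq_zero fun l _ => ?_
  have h1 : (fun i => co ω (update x 0 y i) (l i)) =
      update (prj n l (coEquiv ω n x)) 0 (co ω y (l 0)) := by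
    funext i
    by_cases hi : i = 0
    · subst hi
      rw [update_self, update_self]
    · rw [update_of_ne hi, update_of_ne hi]
      rfl
  rw [h1, h l, map_zero, mul_zero]

variable [Fintype F] [Fintype K]

lemma dn_ZS_pre [DecidableEq (Fin (d + 2) × Fin k)] (T : MForm F n) (l : Fin (d + 2) → Fin k) :
    dn (X := fun p : Fin (d + 2) × Fin k => Fin (n p.1) → F) (prj n l ⁻¹' ZS T) = dn (ZS T) := by
  unfold dn
  have h1 := card_pre (prj n l) (prj_surj l) (ZS T)
  rw [div_eq_div_iff card_pos_pi.ne' card_pos_pi.ne']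
  exact_mod_cast h1

include ω in
/-- the proportion of zeros over `K` -/
theorem dn_TK (T : MForm F n) : dn (ZS T) ^ (k ^ (d + 2)) ≤ dn (ZS (TK K T)) := by
  classical
  have h1 := dn_iInter (X := fun p : Fin (d + 2) × Fin k => Fin (n p.1) → F)
    (A := fun l : Fin (d + 2) → Fin k => prj n l ⁻¹' ZS T) Finset.univ (ZS_fib T)
  simp only [dn_ZS_pre] at h1
  rw [Finset.prod_const, Finset.card_univ, Fintype.card_fun, Fintype.card_fin,
    Fintype.card_fin] at h1
  refine h1.trans ?_
  unfold dn
  have h2 : Nat.card ((i : Fin (d + 2)) → Fin (n i) → K) =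
      Nat.card ((p : Fin (d + 2) × Fin k) → Fin (n p.1) → F) := Nat.card_congr (coEquiv ω n)
  rw [h2]
  refine div_le_div_of_nonneg_right ?_ card_pos_pi.le
  have h3 : Nat.card (⋂ l ∈ (Finset.univ : Finset (Fin (d + 2) → Fin k)), prj n l ⁻¹' ZS T :
      Set ((p : Fin (d + 2) × Fin k) → Fin (n p.1) → F)) ≤ Nat.card (ZS (TK K T)) := by
    refine Nat.card_le_card_of_injective (fun z => ⟨(coEquiv ω n).symm z.1, ?_⟩) ?_
    · refine mem_ZS_TK ω T fun l => ?_
      rw [Equiv.apply_symm_apply]
      have := z.2
      simp only [Set.mem_iInter, Finset.mem_univ, forall_true_left] at this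
      exact this l
    · intro z z' hz
      have := congrArg Subtype.val hz
      exact Subtype.ext ((coEquiv ω n).symm.injective this)
  exact_mod_cast h3

lemma zero_mem_ZS (T : MForm F n) : (0 : (i : Fin (d + 2)) → Fin (n i) → F) ∈ ZS T := by
  intro y
  refine MultilinearMap.map_coord_zero T 1 ?_
  rw [update_of_ne]
  · rfl
  · exact Fin.ne_of_val_ne (by simp)

lemma dn_pos (T : MForm F n) : 0 < dn (ZS T) := by
  unfold dn
  refine div_pos ?_ card_pos_pi
  have : Nonempty (ZS T) := ⟨⟨0, zero_mem_ZS T⟩⟩
  exact_mod_cast Nat.card_pos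

lemma dn_le_one (T : MForm F n) : dn (ZS T) ≤ 1 := by
  unfold dn
  rw [div_le_one card_pos_pi]
  have : Nat.card (ZS T) ≤ Nat.card ((i : Fin (d + 2)) → Fin (n i) → F) :=
    Nat.card_le_card_of_injective _ Subtype.val_injective
  exact_mod_cast this

lemma arank_eq (T : MForm F n) : arank T = -Real.logb (Fintype.card F : ℝ) (dn (ZS T)) := rfl

lemma one_lt_cardF : (1 : ℝ) < (Fintype.card F : ℝ) := by
  exact_mod_cast Fintype.one_lt_card

lemma arank_nonneg (T : MForm F n) : 0 ≤ arank T := by
  rw [arank_eq, neg_nonneg]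
  exact Real.logb_nonpos one_lt_cardF (dn_pos T).le (dn_le_one T)

include ω in
/-- the analytic rank after extension of scalars -/
theorem arank_TK (hk : 0 < k) (T : MForm F n) :
    arank (TK K T) ≤ (k : ℝ) ^ (d + 2) * arank T := by
  have h1 := dn_TK ω T
  have hpos := dn_pos T
  have hcard : (Fintype.card K : ℝ) = (Fintype.card F : ℝ) ^ k := by
    have h2 : Fintype.card K = Fintype.card F ^ k := by
      have h3 := Module.card_eq_pow_finrank (K := F) (V := K)
      rw [h3, Module.finrank_eq_card_basis ω, Fintype.card_fin]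
    rw [h2]
    push_cast
    rfl
  have hF := one_lt_cardF (F := F)
  have hlogF : 0 < Real.log (Fintype.card F : ℝ) := Real.log_pos hF
  have hK := one_lt_cardF (F := K)
  have h2 : Real.logb (Fintype.card K : ℝ) (dn (ZS T) ^ (k ^ (d + 2))) ≤
      Real.logb (Fintype.card K : ℝ) (dn (ZS (TK K T))) :=
    Real.logb_le_logb_of_le hK (by positivity) h1
  have h3 : Real.logb (Fintype.card K : ℝ) (dn (ZS T) ^ (k ^ (d + 2))) =
      (k : ℝ) ^ (d + 2) * (Real.logb (Fintype.card F : ℝ) (dn (ZS T)) / k) := by
    unfold Real.logb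
    rw [Real.log_pow, hcard, Real.log_pow]
    push_cast
    have : (k : ℝ) ≠ 0 := by exact_mod_cast hk.ne'
    field_simp
  rw [h3] at h2
  have h4 : arank (TK K T) ≤ (k : ℝ) ^ (d + 2) * (arank T / k) := by
    rw [arank_eq, arank_eq]
    have : (k : ℝ) ^ (d + 2) * (-Real.logb (Fintype.card F : ℝ) (dn (ZS T)) / k) =
        -((k : ℝ) ^ (d + 2) * (Real.logb (Fintype.card F : ℝ) (dn (ZS T)) / k)) := by ring
    rw [this]
    linarith
  refine h4.trans ?_
  have h5 : arank T / k ≤ arank T :=
    div_le_self (arank_nonneg T) (by exact_mod_cast hk)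
  exact mul_le_mul_of_nonneg_left h5 (by positivity)

include ω in
/-- the partition rank after restriction of scalars -/
theorem PRLe_of_TK (T : MForm F n) {r : ℕ} (h : PRLe (TK K T) r) : PRLe T (r * k) := by
  obtain ⟨S, a, b, hS, hx⟩ := h
  obtain ⟨lam, hlam⟩ := (Algebra.linearMap F K).exists_leftInverse_of_injective
    (LinearMap.ker_eq_bot.2 (algebraMap F K).injective)
  have hlam' : ∀ c : F, lam (algebraMap F K c) = c := fun c => LinearMap.congr_fun hlam c
  let e := (finProdFinEquiv : Fin r × Fin k ≃ Fin (r * k))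
  let a' : (t : Fin (r * k)) → MultilinearMap F
      (fun j : {j // j ∈ S (e.symm t).1} => Fin (n j.1) → F) F := fun t =>
    (ω.coord (e.symm t).2).compMultilinearMap
      (((a (e.symm t).1).restrictScalars F).compLinearMap fun j => inc F K (n j.1))
  let b' : (t : Fin (r * k)) → MultilinearMap F
      (fun j : {j // j ∉ S (e.symm t).1} => Fin (n j.1) → F) F := fun t =>
    (lam ∘ₗ LinearMap.mulLeft F (ω (e.symm t).2)).compMultilinearMap
      (((b (e.symm t).1).restrictScalars F).compLinearMap fun j => inc F K (n j.1))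
  refine ⟨fun t => S (e.symm t).1, a', b', fun t => hS _, fun x => ?_⟩
  have h1 : T x = lam (TK K T fun i => inc F K (n i) (x i)) := by
    rw [TK_inc, hlam']
  let V : Fin r × Fin k → F := fun p =>
    ω.repr (a p.1 fun j => inc F K (n j.1) (x j.1)) p.2 *
      lam (ω p.2 * b p.1 fun j => inc F K (n j.1) (x j.1))
  have h2 : T x = ∑ p, V p := by
    rw [h1, hx, map_sum, Fintype.sum_prod_type]
    refine Finset.sum_congr rfl fun t _ => ?_
    set A := a t fun j => inc F K (n j.1) (x j.1) with hA
    set B := b t fun j => inc F K (n j.1) (x j.1) with hB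
    have h3 : A * B = ∑ l, ω.repr A l • (ω l * B) := by
      conv_lhs => rw [← ω.sum_repr A]
      rw [Finset.sum_mul]
      refine Finset.sum_congr rfl fun l _ => ?_
      rw [Algebra.smul_mul_assoc]
    rw [h3, map_sum]
    refine Finset.sum_congr rfl fun l _ => ?_
    rw [map_smul, smul_eq_mul]
  rw [h2, ← Equiv.sum_comp e.symm V]
  rfl

end ext

/-! ### the conclusion -/

/-- **From large fields to all fields.** -/
theorem uniform_of_large {d : ℕ} (h : UniformLarge d) : Uniform d := by
  obtain ⟨q₀, C, hC, hU⟩ := h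
  set k : ℕ := q₀ + 1 with hk
  have hk0 : 0 < k := Nat.succ_pos _
  refine ⟨k * (C * (k : ℝ) ^ (d + 2)), by positivity, ?_⟩
  intro F _ _ n T
  obtain ⟨p, hp⟩ := CharP.exists F
  have : Fact p.Prime := ⟨CharP.char_is_prime F p⟩
  have : NeZero k := ⟨hk0.ne'⟩
  let K : Type := FiniteField.Extension F p k
  have : Fintype K := Fintype.ofFinite K
  have hfin : Module.finrank F K = k := FiniteField.finrank_extension F p k
  let ω : Module.Basis (Fin k) F K := Module.finBasisOfFinrankEq F K hfin
  have hcard : q₀ ≤ Fintype.card K := by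
    have h1 : Fintype.card K = Fintype.card F ^ k := by
      have h3 := Module.card_eq_pow_finrank (K := F) (V := K)
      rw [h3, hfin]
    rw [h1]
    have h2 : 2 ≤ Fintype.card F := Fintype.one_lt_card
    calc q₀ ≤ k := Nat.le_succ _
      _ ≤ 2 ^ k := Nat.lt_two_pow_self.le
      _ ≤ Fintype.card F ^ k := Nat.pow_le_pow_left h2 k
  obtain ⟨r, hr, hP⟩ := hU K hcard n (TK K T)
  refine ⟨r * k, ?_, PRLe_of_TK ω T hP⟩
  have h1 := arank_TK ω hk0 T
  push_cast
  calc (r : ℝ) * k ≤ (C * arank (TK K T)) * k := by gcongr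
    _ ≤ (C * ((k : ℝ) ^ (d + 2) * arank T)) * k := by gcongr
    _ = k * (C * (k : ℝ) ^ (d + 2)) * arank T := by ring

end Pool.Agent.T6.H37.PA
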